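import Pool.Agent.U239.LQ.Rep

/-!
# The curves with complex multiplication by `ℤ[2 i]`: the isogeny
-/

set_option autoImplicit false

namespace Pool.Agent.U239.LQ

open Finset
open Pool.Agent.H304R2.EC Pool.Agent.H304R2.EC.Pts

section
variable {p : ℕ} [hF : Fact p.Prime]

/-- the sum of the quadratic character over `x (x² + a x + b)` -/
noncomputable def S2 (a b : ZMod p) : ℤ := ∑ x : ZMod p, qc p (x * (x ^ 2 + a * x + b))

lemma cnt_sq (h2 : p ≠ 2) (c : ZMod p) : ∑ v : ZMod p, (if v ^ 2 = c then (1 : ℤ) else 0) = qc p c + 1 := by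
  have := quadraticChar_card_sqrts (rc h2) c
  rw [← this, ← Finset.sum_filter, Finset.sum_const, nsmul_eq_mul, mul_one]
  congr 2
  ext y
  simp

lemma cnt_mul (h2 : p ≠ 2) (c k : ZMod p) (hk : k ≠ 0) :
    ∑ u : ZMod p, (if u ^ 2 * k = c then (1 : ℤ) else 0) = qc p (c * k) + 1 := by
  rw [← cnt_sq h2, ← Equiv.sum_comp (Equiv.mulLeft₀ k hk) (fun v => if v ^ 2 = c * k then (1 : ℤ) else 0)]
  refine Finset.sum_congr rfl fun u _ => ?_
  have e : (Equiv.mulLeft₀ k hk) u = k * u := rfl
  rw [e]
  have h : (u ^ 2 * k = c) ↔ ((k * u) ^ 2 = c * k) := by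
    constructor
    · intro h
      rw [← h]
      ring
    · intro h
      have h1 : k * (u ^ 2 * k - c) = 0 := by linear_combination h
      rcases mul_eq_zero.1 h1 with h2 | h2
      · exact absurd h2 hk
      · exact sub_eq_zero.1 h2
  simp only [h]

lemma two_ne (h2 : p ≠ 2) : (2 : ZMod p) ≠ 0 := by
  intro h
  have h1 : ((2 : ℕ) : ZMod p) = 0 := by exact_mod_cast h
  rw [ZMod.natCast_eq_zero_iff] at h1
  exact h2 ((Nat.prime_dvd_prime_iff_eq hF.out Nat.prime_two).1 h1)

/-- the sum of the quadratic character over a quadratic polynomial -/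
lemma quad_sum (h2 : p ≠ 2) (a b : ZMod p) (hd : a ^ 2 - 4 * b ≠ 0) :
    ∑ w : ZMod p, qc p (w ^ 2 + a * w + b) = -1 := by
  have h20 := two_ne (p := p) h2
  have h1 : ∑ w : ZMod p, (qc p (w ^ 2 + a * w + b) + 1) = (p : ℤ) - 1 := by
    calc ∑ w : ZMod p, (qc p (w ^ 2 + a * w + b) + 1)
        = ∑ w : ZMod p, ∑ v : ZMod p, (if v ^ 2 = w ^ 2 + a * w + b then (1 : ℤ) else 0) := by
          simp_rw [cnt_sq h2]
      _ = ∑ w : ZMod p, ∑ s : ZMod p, (if w * (2 * s - a) = b - s ^ 2 then (1 : ℤ) else 0) := by
          refine Finset.sum_congr rfl fun w _ => ?_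
          rw [← Equiv.sum_comp (Equiv.addLeft w)]
          refine Finset.sum_congr rfl fun s _ => ?_
          have e : (Equiv.addLeft w) s = w + s := rfl
          rw [e]
          have h : ((w + s) ^ 2 = w ^ 2 + a * w + b) ↔ (w * (2 * s - a) = b - s ^ 2) := by
            constructor
            · intro h
              linear_combination h
            · intro h
              linear_combination h
          simp only [h]
      _ = ∑ s : ZMod p, ∑ w : ZMod p, (if w * (2 * s - a) = b - s ^ 2 then (1 : ℤ) else 0) := Finset.sum_comm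
      _ = ∑ s : ZMod p, (if s = a / 2 then (0 : ℤ) else 1) := by
          refine Finset.sum_congr rfl fun s _ => ?_
          split_ifs with hs
          · refine Finset.sum_eq_zero fun w _ => ?_
            rw [if_neg]
            intro h
            apply hd
            have e1 : 2 * s = a := by
              rw [hs]
              field_simp
            have e2 : b - s ^ 2 = 0 := by
              rw [← h, e1, sub_self, mul_zero]
            linear_combination (-4) * e2 - (a + 2 * s) * e1
          · have hk : 2 * s - a ≠ 0 := by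
              intro h
              apply hs
              field_simp
              linear_combination h
            rw [Finset.sum_eq_single ((b - s ^ 2) / (2 * s - a))]
            · rw [if_pos (div_mul_cancel₀ _ hk)]
            · intro w _ hw
              rw [if_neg]
              intro h
              apply hw
              rw [← h, mul_div_assoc, div_self hk, mul_one]
            · intro h
              exact absurd (mem_univ _) h
      _ = (p : ℤ) - 1 := by
          rw [← Finset.sum_filter_add_sum_filter_not univ (fun s => s = a / 2)]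
          rw [Finset.sum_congr rfl (g := fun _ => (0 : ℤ)) (fun s hs => by
            rw [mem_filter] at hs
            rw [if_pos hs.2])]
          rw [Finset.sum_congr (s₁ := univ.filter (fun s => ¬ s = a / 2)) rfl (g := fun _ => (1 : ℤ)) (fun s hs => by
            rw [mem_filter] at hs
            rw [if_neg hs.2])]
          rw [sum_const_zero, zero_add, sum_const, nsmul_eq_mul, mul_one]
          rw [Finset.filter_ne', Finset.card_erase_of_mem (mem_univ _), Finset.card_univ, ZMod.card]
          have := hF.out.one_lt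
          push_cast [Nat.cast_sub this.le]
          ring
  rw [Finset.sum_add_distrib, sum_const, card_univ, ZMod.card, nsmul_eq_mul, mul_one] at h1
  linarith

/-- the isogeny of degree two -/
theorem S2_iso (h2 : p ≠ 2) (a b : ZMod p) (hd : a ^ 2 - 4 * b ≠ 0) :
    S2 a b = S2 (-2 * a) (a ^ 2 - 4 * b) := by
  have h20 := two_ne (p := p) h2
  -- the first count
  have h1 : ∑ u : ZMod p, qc p (u ^ 4 + a * u ^ 2 + b) = -1 + S2 a b := by
    rw [← quad_sum h2 a b hd]
    unfold S2
    rw [← Finset.sum_add_distrib]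
    have e1 : ∀ w : ZMod p, qc p (w ^ 2 + a * w + b) + qc p (w * (w ^ 2 + a * w + b)) =
        ∑ v : ZMod p, (if v ^ 2 = w then qc p (w ^ 2 + a * w + b) else 0) := by
      intro w
      have e2 : ∀ v : ZMod p, (if v ^ 2 = w then qc p (w ^ 2 + a * w + b) else 0) =
          (if v ^ 2 = w then (1 : ℤ) else 0) * qc p (w ^ 2 + a * w + b) := by
        intro v
        split_ifs <;> simp
      simp_rw [e2]
      rw [← Finset.sum_mul, cnt_sq h2, map_mul]
      ring
    simp_rw [e1]
    rw [Finset.sum_comm]
    refine Finset.sum_congr rfl fun u _ => ?_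
    rw [Finset.sum_eq_single (u ^ 2)]
    · rw [if_pos rfl]
      congr 1
      ring
    · intro w _ hw
      rw [if_neg (Ne.symm hw)]
    · intro h
      exact absurd (mem_univ _) h
  -- the second count
  have h3 : ∑ u : ZMod p, (qc p (u ^ 4 + a * u ^ 2 + b) + 1) = (p : ℤ) - 1 + S2 (-2 * a) (a ^ 2 - 4 * b) := by
    calc ∑ u : ZMod p, (qc p (u ^ 4 + a * u ^ 2 + b) + 1)
        = ∑ u : ZMod p, ∑ v : ZMod p, (if v ^ 2 = u ^ 4 + a * u ^ 2 + b then (1 : ℤ) else 0) := by
          simp_rw [cnt_sq h2]
      _ = ∑ u : ZMod p, ∑ s : ZMod p, (if u ^ 2 * (2 * s - a) = b - s ^ 2 then (1 : ℤ) else 0) := by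
          refine Finset.sum_congr rfl fun u _ => ?_
          rw [← Equiv.sum_comp (Equiv.addLeft (u ^ 2))]
          refine Finset.sum_congr rfl fun s _ => ?_
          have e : (Equiv.addLeft (u ^ 2)) s = u ^ 2 + s := rfl
          rw [e]
          have h : ((u ^ 2 + s) ^ 2 = u ^ 4 + a * u ^ 2 + b) ↔ (u ^ 2 * (2 * s - a) = b - s ^ 2) := by
            constructor
            · intro h
              linear_combination h
            · intro h
              linear_combination h
          simp only [h]
      _ = ∑ s : ZMod p, ∑ u : ZMod p, (if u ^ 2 * (2 * s - a) = b - s ^ 2 then (1 : ℤ) else 0) := Finset.sum_comm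
      _ = ∑ s : ZMod p, ((if s = a / 2 then (0 : ℤ) else 1) + qc p ((b - s ^ 2) * (2 * s - a))) := by
          refine Finset.sum_congr rfl fun s _ => ?_
          by_cases hs : s = a / 2
          · have e1 : 2 * s = a := by
              rw [hs]
              field_simp
            rw [if_pos hs]
            have e3 : 2 * s - a = 0 := by rw [e1, sub_self]
            rw [e3, mul_zero, MulChar.map_zero, add_zero]
            refine Finset.sum_eq_zero fun w _ => ?_
            rw [if_neg]
            intro h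
            apply hd
            have e2 : b - s ^ 2 = 0 := by
              rw [← h, mul_zero]
            linear_combination (-4) * e2 - (a + 2 * s) * e1
          · have hk : 2 * s - a ≠ 0 := by
              intro h
              apply hs
              field_simp
              linear_combination h
            rw [if_neg hs, cnt_mul h2 _ _ hk]
            ring
      _ = (p : ℤ) - 1 + S2 (-2 * a) (a ^ 2 - 4 * b) := by
          rw [Finset.sum_add_distrib]
          congr 1
          · rw [← Finset.sum_filter_add_sum_filter_not univ (fun s => s = a / 2)]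
            rw [Finset.sum_congr rfl (g := fun _ => (0 : ℤ)) (fun s hs => by
              rw [mem_filter] at hs
              rw [if_pos hs.2])]
            rw [Finset.sum_congr (s₁ := univ.filter (fun s => ¬ s = a / 2)) rfl (g := fun _ => (1 : ℤ)) (fun s hs => by
              rw [mem_filter] at hs
              rw [if_neg hs.2])]
            rw [sum_const_zero, zero_add, sum_const, nsmul_eq_mul, mul_one]
            rw [Finset.filter_ne', Finset.card_erase_of_mem (mem_univ _), Finset.card_univ, ZMod.card]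
            have := hF.out.one_lt
            push_cast [Nat.cast_sub this.le]
            ring
          · unfold S2
            have h2' : (-2 : ZMod p)⁻¹ ≠ 0 := inv_ne_zero (neg_ne_zero.2 h20)
            rw [← Equiv.sum_comp ((Equiv.mulLeft₀ (-2 : ZMod p)⁻¹ h2').trans (Equiv.addLeft (a / 2)))]
            refine Finset.sum_congr rfl fun t _ => ?_
            have e : ((Equiv.mulLeft₀ (-2 : ZMod p)⁻¹ h2').trans (Equiv.addLeft (a / 2))) t = a / 2 + (-2 : ZMod p)⁻¹ * t := rfl
            rw [e]
            have e1 : (b - (a / 2 + (-2 : ZMod p)⁻¹ * t) ^ 2) * (2 * (a / 2 + (-2 : ZMod p)⁻¹ * t) - a) =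
                (2⁻¹) ^ 2 * (t * (t ^ 2 + -2 * a * t + (a ^ 2 - 4 * b))) := by
              have e2 : (-2 : ZMod p)⁻¹ = -(2⁻¹) := inv_neg
              rw [e2]
              have e3 : (2 : ZMod p) * 2⁻¹ = 1 := mul_inv_cancel₀ h20
              rw [div_eq_mul_inv]
              generalize (2 : ZMod p)⁻¹ = i at *
              have e4 : 2 * (a * i + -i * t) - a = -t := by linear_combination (a - t) * e3
              rw [e4]
              have e5 : b = i ^ 2 * (4 * b) := by linear_combination (-b * (2 * i + 1)) * e3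
              linear_combination (-t) * e5
            rw [e1, map_mul, qc_sq (inv_ne_zero h20), one_mul]
  rw [Finset.sum_add_distrib, sum_const, card_univ, ZMod.card, nsmul_eq_mul, mul_one, h1] at h3
  linarith

/-- the curves of the order `ℤ[2 i]` -/
theorem SS_iso (h2 : p ≠ 2) (t : ZMod p) (ht : t ≠ 0) :
    ∑ x : ZMod p, qc p (x ^ 3 - 11 * t ^ 2 * x + 14 * t ^ 3) = SS (t ^ 2) := by
  have h20 := two_ne (p := p) h2
  have h1 : ∑ x : ZMod p, qc p (x ^ 3 - 11 * t ^ 2 * x + 14 * t ^ 3) = S2 (6 * t) (t ^ 2) := by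
    unfold S2
    rw [← Equiv.sum_comp (Equiv.addLeft (2 * t))]
    refine Finset.sum_congr rfl fun x _ => ?_
    have e : (Equiv.addLeft (2 * t)) x = 2 * t + x := rfl
    rw [e]
    congr 1
    ring
  rw [h1, S2_iso h2 _ _ (by
    have e : (6 * t) ^ 2 - 4 * t ^ 2 = 2 ^ 5 * t ^ 2 := by ring
    rw [e]
    exact mul_ne_zero (pow_ne_zero _ h20) (pow_ne_zero _ ht))]
  have h3 : S2 (-2 * (6 * t)) ((6 * t) ^ 2 - 4 * t ^ 2) = SS (t ^ 2 * 4 ^ 2) := by
    unfold S2 SS
    rw [← Equiv.sum_comp (Equiv.addLeft (4 * t))]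
    refine Finset.sum_congr rfl fun x _ => ?_
    have e : (Equiv.addLeft (4 * t)) x = 4 * t + x := rfl
    rw [e]
    congr 1
    ring
  have h4 : (4 : ZMod p) = 2 ^ 2 := by norm_num
  have h40 : (4 : ZMod p) ≠ 0 := by
    rw [h4]
    exact pow_ne_zero _ h20
  rw [h3, SS_scale _ _ h40, h4, qc_sq h20, one_mul]

end

/-- the number of the solutions of `y² = x³ + A x + B` modulo `p` -/
def ptsAB (A B : ℤ) (p : ℕ) : ℕ :=
  ((range p ×ˢ range p).filter
    (fun xy : ℕ × ℕ => (p : ℤ) ∣ (xy.2 : ℤ) ^ 2 - ((xy.1 : ℤ) ^ 3 + A * (xy.1 : ℤ) + B))).card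

/-- the trace of Frobenius of `y² = x³ + A x + B` at `p` -/
def trAB (A B : ℤ) (p : ℕ) : ℤ := (p : ℤ) - ptsAB A B p

theorem trAB_eq {p : ℕ} [hF : Fact p.Prime] (A B : ℤ) (h2 : p ≠ 2) :
    trAB A B p = - ∑ x : ZMod p, qc p (x ^ 3 + A * x + B) := by
  have hcard : ((ptsAB A B p : ℕ) : ℤ) =
      ∑ x : ZMod p, (((univ : Finset (ZMod p)).filter fun y => y ^ 2 = x ^ 3 + (A : ZMod p) * x + B).card : ℤ) := by
    unfold ptsAB
    rw [← Nat.cast_sum, ← Finset.card_sigma]
    congr 1
    refine Finset.card_bij' (fun xy _ => (⟨(xy.1 : ZMod p), (xy.2 : ZMod p)⟩ : Σ _ : ZMod p, ZMod p))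
      (fun q _ => (q.1.val, q.2.val)) ?_ ?_ ?_ ?_
    · rintro ⟨x, y⟩ h
      simp only [mem_filter, mem_product, mem_range] at h
      simp only [mem_sigma, mem_univ, mem_filter, true_and]
      obtain ⟨_, h⟩ := h
      rw [← ZMod.intCast_zmod_eq_zero_iff_dvd] at h
      push_cast at h
      linear_combination h
    · rintro ⟨x, y⟩ h
      simp only [mem_sigma, mem_univ, mem_filter, true_and] at h
      simp only [mem_filter, mem_product, mem_range]
      refine ⟨⟨ZMod.val_lt _, ZMod.val_lt _⟩, ?_⟩
      rw [← ZMod.intCast_zmod_eq_zero_iff_dvd]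
      push_cast
      simp only [ZMod.natCast_val, ZMod.cast_id', id_eq]
      linear_combination h
    · rintro ⟨x, y⟩ h
      simp only [mem_filter, mem_product, mem_range] at h
      simp only [Prod.mk.injEq]
      exact ⟨ZMod.val_cast_of_lt h.1.1, ZMod.val_cast_of_lt h.1.2⟩
    · rintro ⟨x, y⟩ h
      simp
  have hfib : ∀ x : ZMod p, (((univ : Finset (ZMod p)).filter fun y => y ^ 2 = x ^ 3 + (A : ZMod p) * x + B).card : ℤ) =
      qc p (x ^ 3 + A * x + B) + 1 := by
    intro x
    have := quadraticChar_card_sqrts (rc h2) (x ^ 3 + (A : ZMod p) * x + B)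
    rw [← this]
    congr 2
    ext y
    simp
  unfold trAB
  rw [hcard]
  simp_rw [hfib]
  rw [Finset.sum_add_distrib, sum_const, card_univ, ZMod.card]
  simp only [nsmul_eq_mul, mul_one]
  ring

theorem trAB_D {p : ℕ} (hp : p.Prime) (D : ℤ) (h2 : p ≠ 2) : trAB (-D) 0 p = tr D p := by
  have hF : Fact p.Prime := ⟨hp⟩
  rw [trAB_eq _ _ h2, tr_eq_SS _ h2]
  unfold SS
  congr 1
  refine Finset.sum_congr rfl fun x _ => ?_
  congr 1
  push_cast
  ring

theorem trAB_t {p : ℕ} (hp : p.Prime) (t : ℤ) (h2 : p ≠ 2) (ht : ¬ (p : ℤ) ∣ t) :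
    trAB (-11 * t ^ 2) (14 * t ^ 3) p = tr (t ^ 2) p := by
  have hF : Fact p.Prime := ⟨hp⟩
  have ht0 : (t : ZMod p) ≠ 0 := by
    rw [Ne, ZMod.intCast_zmod_eq_zero_iff_dvd]
    exact ht
  rw [trAB_eq _ _ h2, tr_eq_SS _ h2]
  have := SS_iso h2 (t : ZMod p) ht0
  push_cast
  rw [← this]
  congr 1
  refine Finset.sum_congr rfl fun x _ => ?_
  congr 1
  ring

end Pool.Agent.U239.LQ
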