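import Pool.Agent.U239.LQ.Rep

/-!
# Periodic conditions on Gaussian integers
-/

set_option autoImplicit false

namespace Pool.Agent.U239.LQ

open Pool.Agent.R441.Q4

/-- a condition on `a + m i`, periodic modulo `q`, invariant under conjugation, which implies that the norm is coprime to `q` -/
structure Cnd (q : ℕ) (P : ℤ → ℤ → Prop) : Prop where
  hq : 1 ≤ q
  per : ∀ a m a' m' : ℤ, (q : ℤ) ∣ a - a' → (q : ℤ) ∣ m - m' → (P a m ↔ P a' m')
  neg : ∀ a m : ℤ, P a (-m) ↔ P a m
  cop : ∀ a m : ℤ, P a m → IsCoprime (a ^ 2 + m ^ 2) (q : ℤ)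

lemma prim_congr {w w' : ZI} (h : ((4 : ℤ) : ZI) ∣ w - w') (hw : Prim w) : Prim w' := by
  obtain ⟨⟨u, hu⟩, ⟨v, hv⟩⟩ := int_dvd_of h
  obtain ⟨h1, h2⟩ := hw
  constructor <;> omega

/-- **the condition `PD`** -/
theorem cnd_PD {D : ℤ} (hD : D ≠ 0) : Cnd (16 * D.natAbs) (PD D) where
  hq := by omega
  per := by
    have key : ∀ a m a' m' : ℤ, ((16 * D.natAbs : ℕ) : ℤ) ∣ a - a' → ((16 * D.natAbs : ℕ) : ℤ) ∣ m - m' →
        PD D a m → PD D a' m' := by
      intro a m a' m' ha hm hP
      have e : ((16 * D.natAbs : ℕ) : ℤ) = |16 * D| := by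
        rw [abs_mul, Int.abs_eq_natAbs D]
        push_cast
        norm_num
      rw [e, abs_dvd] at ha hm
      have hd : ((16 * D : ℤ) : ZI) ∣ (⟨a, m⟩ : ZI) - ⟨a', m'⟩ := by
        rw [Zsqrtd.intCast_dvd]
        exact ⟨ha, hm⟩
      obtain ⟨h1, h2, h3⟩ := hP
      obtain ⟨k1, k2, k3⟩ := Q_congr hD h1 h2 hd
      refine ⟨k1, k2, prim_congr ?_ h3⟩
      rw [k3, ← sub_mul]
      refine Dvd.dvd.mul_right (Dvd.dvd.trans ⟨4 * (D : ZI), ?_⟩ hd) _
      push_cast
      ring
    intro a m a' m' ha hm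
    constructor
    · exact key a m a' m' ha hm
    · refine key a' m' a m ?_ ?_
      · rw [← neg_sub]
        exact (dvd_neg).2 ha
      · rw [← neg_sub]
        exact (dvd_neg).2 hm
  neg := by
    have key : ∀ a m : ℤ, PD D a m → PD D a (-m) := by
      intro a m hP
      obtain ⟨h1, h2, h3⟩ := hP
      have e : (⟨a, -m⟩ : ZI) = star ⟨a, m⟩ := rfl
      have hQ : Q (star (⟨a, m⟩ : ZI)) (D : ZI) = star (Q (⟨a, m⟩ : ZI) (D : ZI)) := by
        rw [← Q_star h1, star_intCast]
      unfold PD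
      rw [e, hQ, ← star_mul']
      refine ⟨h1.star, ?_, prim_star.2 h3⟩
      have := h2.map (starRingEnd ZI)
      rwa [starRingEnd_apply, starRingEnd_apply, star_intCast] at this
    intro a m
    constructor
    · intro h
      have := key a (-m) h
      rwa [neg_neg] at this
    · exact key a m
  cop := by
    intro a m hP
    obtain ⟨h1, h2, -⟩ := hP
    set z : ZI := ⟨a, m⟩ with hz
    have h16 : IsCoprime z ((16 * D : ℤ) : ZI) := by
      have e : ((16 * D : ℤ) : ZI) = 2 ^ 4 * (D : ZI) := by push_cast; norm_num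
      rw [e]
      exact (cop_two_pow h1 4).mul_right h2
    have h16' : IsCoprime (star z) ((16 * D : ℤ) : ZI) := by
      have := h16.map (starRingEnd ZI)
      rwa [starRingEnd_apply, starRingEnd_apply, star_intCast] at this
    have h3 := h16.mul_left h16'
    rw [← Zsqrtd.norm_eq_mul_conj, norm_def'] at h3
    have h4 := cop_int h3
    have e : ((16 * D.natAbs : ℕ) : ℤ) = |16 * D| := by
      rw [abs_mul, Int.abs_eq_natAbs D]
      push_cast
      norm_num
    rw [e]
    exact (IsCoprime.abs_right_iff _ _).2 h4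

end Pool.Agent.U239.LQ
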