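import Pool.Agent.U239.LQ.GenA

/-!
# The primes `a² + m²` with a periodic condition, for almost all `a`
-/

set_option autoImplicit false

namespace Pool.Agent.U239.LQ

open Finset Filter Topology Pool.Agent.N782.GN
open Pool.Agent.N782.GN.LT (cop_of_norm int_diff)

open Classical in
/-- the number of the `m ≤ √(x - a²)` with `a² + m²` prime and the condition `P` -/
noncomputable def piP (P : ℤ → ℤ → Prop) (a : ℤ) (x : ℝ) : ℕ :=
  ((Icc 1 ⌊Real.sqrt (x - (a : ℝ) ^ 2)⌋₊).filter (fun m : ℕ => (a.natAbs ^ 2 + m ^ 2).Prime ∧ P a m)).card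

/-- the constant -/
noncomputable def cst (q : ℕ) (P : ℤ → ℤ → Prop) (a : ℤ) : ℝ := sD q P (if 0 < a then 1 else -1) (a.natAbs : ℤ)

/-- the conclusion for `a` -/
def Tr (q : ℕ) (P : ℤ → ℤ → Prop) (ε : ℝ) (A : ℕ) (R : ℝ) (a : ℤ) : Prop :=
  ∀ x : ℝ, R ^ (2 + ε) ≤ x → x ≤ R ^ (3 - ε) →
    |(piP P a x : ℝ) - cst q P a * ∫ t in (2 : ℝ)..(Real.sqrt x), 1 / (2 * Real.log t)| ≤
      Real.sqrt x / (Real.log x) ^ A

/-- a good `l` gives the conclusion for `σ l` -/
theorem good_tr {q : ℕ} {P : ℤ → ℤ → Prop} (hN : Cnd q P) (ε : ℝ) (A : ℕ) (hε : 0 < ε) (hε2 : ε ≤ 1 / 2) :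
    ∃ R₀ : ℝ, ∀ R : ℝ, R₀ ≤ R → ∀ (σ : ℤ) (l : ℕ), (σ = 1 ∨ σ = -1) → 1 ≤ l → (l : ℝ) ≤ R / 2 →
      GoodD q P σ (ε / 4) (A + 1) (R / 2) l → Tr q P ε A R (σ * l) := by
  classical
  have hev := (((ev_rpow_ge (ε / 8) 4 (by positivity)).and (eventually_ge_atTop (16 : ℝ))).and
    (ev_log_pow 1 (4 * 6 ^ A) one_pos 0)).and (ev_log_rpow (ε / 2) (by positivity) (A + 1) (40 * 3 ^ A))
  obtain ⟨R₀, hR₀⟩ := eventually_atTop.1 hev
  refine ⟨R₀, fun R hR σ l hσ hl1 hlR hg x hx1 hx2 => ?_⟩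
  obtain ⟨⟨⟨h1, hR16⟩, h3⟩, h4⟩ := hR₀ R hR
  rw [zero_add, pow_one, one_mul] at h3
  have hR0 : 0 < R := by linarith
  have hR1 : 1 ≤ R := by linarith
  set L : ℝ := R / 2 with hL
  have hL0 : 0 < L := by positivity
  have hL1 : 1 ≤ L := by linarith
  have hσ2 : σ ^ 2 = 1 := by rcases hσ with h | h <;> rw [h] <;> norm_num
  have hx0 : 0 < x := lt_of_lt_of_le (by positivity) hx1
  -- sizes
  have hxR : R ^ 2 * R ^ ε ≤ x := by
    have : R ^ (2 + ε) = R ^ 2 * R ^ ε := by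
      rw [Real.rpow_add hR0]
      congr 1
      rw [show (2 : ℝ) = ((2 : ℕ) : ℝ) by norm_num, Real.rpow_natCast]
    rw [← this]
    exact hx1
  have hRe : 4 ≤ R ^ ε := by
    refine h1.trans (Real.rpow_le_rpow_of_exponent_le hR1 ?_)
    linarith
  have hRe2 : 1 ≤ R ^ (ε / 2) := Real.one_le_rpow hR1 (by positivity)
  have hl2 : (l : ℝ) ^ 2 ≤ R ^ 2 / 4 := by
    have : (l : ℝ) ^ 2 ≤ (R / 2) ^ 2 := pow_le_pow_left₀ (by positivity) hlR 2
    calc (l : ℝ) ^ 2 ≤ (R / 2) ^ 2 := this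
      _ = R ^ 2 / 4 := by ring
  have hR2x : R ^ 2 ≤ x := by
    have : 0 < R ^ 2 := by positivity
    nlinarith
  have hlx : (l : ℝ) ^ 2 ≤ x / 4 := by linarith
  set u : ℝ := Real.sqrt (x - (l : ℝ) ^ 2) with hu
  have hsx : 0 < Real.sqrt x := Real.sqrt_pos.2 hx0
  have hux : u ≤ Real.sqrt x := Real.sqrt_le_sqrt (by nlinarith [sq_nonneg (l : ℝ)])
  have hu2 : u ^ 2 = x - (l : ℝ) ^ 2 := Real.sq_sqrt (by linarith)
  have hsx2 : Real.sqrt x ^ 2 = x := Real.sq_sqrt hx0.le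
  have hu0 : 0 ≤ u := Real.sqrt_nonneg _
  have hu1 : Real.sqrt x / 2 ≤ u := by
    apply le_of_sq_le_sq _ hu0
    rw [hu2, div_pow, hsx2]
    linarith
  have hsR : R ^ (1 + ε / 2) ≤ Real.sqrt x := by
    rw [Real.le_sqrt' (by positivity)]
    refine le_trans (le_of_eq ?_) hx1
    rw [← Real.rpow_natCast, ← Real.rpow_mul hR0.le]
    congr 1
    push_cast
    ring
  have hsR2 : Real.sqrt x ≤ R ^ (3 / 2 - ε / 2) := by
    rw [Real.sqrt_le_left (by positivity)]
    refine hx2.trans (le_of_eq ?_)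
    rw [← Real.rpow_natCast, ← Real.rpow_mul hR0.le]
    congr 1
    push_cast
    ring
  have hu4 : L ^ (1 + ε / 4) ≤ u := by
    refine le_trans ?_ hu1
    have e1 : L ^ (1 + ε / 4) ≤ R ^ (1 + ε / 4) := Real.rpow_le_rpow hL0.le (by linarith) (by positivity)
    have e2 : R ^ (1 + ε / 4) * 2 ≤ R ^ (1 + ε / 2) := by
      calc R ^ (1 + ε / 4) * 2 ≤ R ^ (1 + ε / 4) * R ^ (ε / 4) := by
            refine mul_le_mul_of_nonneg_left ?_ (by positivity)
            have := Real.rpow_le_rpow_of_exponent_le hR1 (show ε / 8 ≤ ε / 4 by linarith)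
            linarith
        _ = R ^ (1 + ε / 2) := by
            rw [← Real.rpow_add hR0]
            congr 1
            ring
    linarith
  have hu5 : u ≤ L ^ (3 / 2 - ε / 4) := by
    refine hux.trans (hsR2.trans ?_)
    -- `R^(3/2 - ε/2) ≤ (R/2)^(3/2 - ε/4)`
    have e1 : L ^ (3 / 2 - ε / 4) = R ^ (3 / 2 - ε / 4) / 2 ^ (3 / 2 - ε / 4) := by
      rw [hL, Real.div_rpow hR0.le (by norm_num)]
    rw [e1, le_div_iff₀ (by positivity)]
    have e2 : (2 : ℝ) ^ (3 / 2 - ε / 4) ≤ R ^ (ε / 4) := by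
      have e3 : (2 : ℝ) ^ (3 / 2 - ε / 4) ≤ 2 ^ (2 : ℝ) := Real.rpow_le_rpow_of_exponent_le (by norm_num) (by linarith)
      have e4 : (2 : ℝ) ^ (2 : ℝ) = 4 := by
        rw [show (2 : ℝ) ^ (2 : ℝ) = (2 : ℝ) ^ ((2 : ℕ) : ℝ) by norm_num, Real.rpow_natCast]
        norm_num
      have e5 := Real.rpow_le_rpow_of_exponent_le hR1 (show ε / 8 ≤ ε / 4 by linarith)
      linarith
    calc R ^ (3 / 2 - ε / 2) * 2 ^ (3 / 2 - ε / 4) ≤ R ^ (3 / 2 - ε / 2) * R ^ (ε / 4) :=
          mul_le_mul_of_nonneg_left e2 (by positivity)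
      _ = R ^ (3 / 2 - ε / 4) := by
          rw [← Real.rpow_add hR0]
          congr 1
          ring
  -- the number of primes
  have hna : (σ * l : ℤ).natAbs = l := by
    rcases hσ with h | h <;> rw [h] <;> simp
  have hpi : (piP P (σ * l) x : ℝ) = PP (cD P σ l) l ⌊u⌋₊ := by
    unfold piP PP cD
    have e1 : Real.sqrt (x - (((σ * l : ℤ)) : ℝ) ^ 2) = u := by
      rw [hu]
      congr 2
      push_cast
      rw [mul_pow]
      have : ((σ : ℝ)) ^ 2 = 1 := by exact_mod_cast hσ2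
      rw [this, one_mul]
    rw [e1, hna, card_filter]
    push_cast
    refine sum_congr rfl fun m _ => ?_
    by_cases h1 : (l ^ 2 + m ^ 2).Prime
    · by_cases h2 : P (σ * l) m
      · rw [if_pos ⟨h1, h2⟩, if_pos h2, if_pos h1, mul_one]
      · rw [if_neg (fun h => h2 h.2), if_neg h2, zero_mul]
    · rw [if_neg (fun h => h1 h.1), if_neg h1, mul_zero]
  -- the constant
  have hcst : cst q P (σ * l) = sD q P σ l := by
    unfold cst
    have e3 : (if 0 < (σ * l : ℤ) then (1 : ℤ) else -1) = σ := by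
      rcases hσ with h | h
      · rw [h, if_pos (by omega)]
      · rw [h, if_neg (by omega)]
    rw [hna, e3]
  rw [hpi, hcst]
  obtain ⟨hs, hgu⟩ := hg
  have hgu := hgu u hu4 hu5
  have hs0 : 0 ≤ sD q P σ l := (avgD hN σ hσ2).s0 l l (by
    rw [mem_box]
    exact ⟨by exact_mod_cast hl1, by simp⟩)
  -- the integrals
  have hu6 : 2 ≤ u := by
    have e1 : (4 : ℝ) ≤ R ^ (1 + ε / 2) := by
      calc (4 : ℝ) ≤ R := by linarith
        _ = R ^ (1 : ℝ) := (Real.rpow_one R).symm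
        _ ≤ _ := Real.rpow_le_rpow_of_exponent_le hR1 (by linarith)
    linarith
  have hd1 := int_diff hu6 hux
  have hd2 : Real.sqrt x - u ≤ (l : ℝ) ^ 2 / Real.sqrt x := by
    rw [le_div_iff₀ hsx]
    nlinarith
  have hd3 : (l : ℝ) ^ 2 / Real.sqrt x ≤ Real.sqrt x * (1 / R ^ ε) := by
    rw [div_le_iff₀ hsx]
    have e1 : Real.sqrt x * (1 / R ^ ε) * Real.sqrt x = x / R ^ ε := by
      have := hsx2
      field_simp
      linarith
    rw [e1, le_div_iff₀ (by positivity)]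
    have : 0 ≤ R ^ ε := by positivity
    nlinarith
  -- the logarithms
  have hlogR : 0 < Real.log R := Real.log_pos (by linarith)
  have hlogx : Real.log x ≤ 3 * Real.log R := by
    have e1 : x ≤ R ^ (3 : ℝ) := hx2.trans (Real.rpow_le_rpow_of_exponent_le hR1 (by linarith))
    have e2 := Real.log_le_log hx0 e1
    rwa [Real.log_rpow hR0] at e2
  have hlogx0 : 1 ≤ Real.log x := by
    rw [Real.le_log_iff_exp_le hx0]
    have := Real.exp_one_lt_d9
    nlinarith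
  have hlogL : Real.log R / 2 ≤ Real.log L := by
    have e1 : Real.sqrt R ≤ L := by
      rw [Real.sqrt_le_left hL0.le, hL]
      nlinarith
    have e2 := Real.log_le_log (Real.sqrt_pos.2 hR0) e1
    rwa [Real.log_sqrt hR0.le] at e2
  have hlogLR : Real.log L ≤ Real.log R := Real.log_le_log hL0 (by linarith)
  have hlogL0 : 0 < Real.log L := by linarith
  have k1 : u / (Real.log L) ^ (A + 1) ≤ 1 / 2 * (Real.sqrt x / (Real.log x) ^ A) := by
    have e1 : 2 * (Real.log x) ^ A ≤ (Real.log L) ^ (A + 1) := by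
      have e2 : (Real.log x) ^ A ≤ (6 * Real.log L) ^ A := pow_le_pow_left₀ (by linarith) (by linarith) A
      rw [mul_pow] at e2
      have e3 : 2 * 6 ^ A ≤ Real.log L := by linarith
      calc 2 * (Real.log x) ^ A ≤ 2 * (6 ^ A * (Real.log L) ^ A) := by linarith
        _ = (2 * 6 ^ A) * (Real.log L) ^ A := by ring
        _ ≤ Real.log L * (Real.log L) ^ A := mul_le_mul_of_nonneg_right e3 (by positivity)
        _ = _ := by ring
    rw [mul_div_assoc', div_le_div_iff₀ (by positivity) (by positivity)]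
    calc u * (Real.log x) ^ A ≤ Real.sqrt x * (Real.log x) ^ A := mul_le_mul_of_nonneg_right hux (by positivity)
      _ = 1 / 2 * Real.sqrt x * (2 * (Real.log x) ^ A) := by ring
      _ ≤ 1 / 2 * Real.sqrt x * (Real.log L) ^ (A + 1) := mul_le_mul_of_nonneg_left e1 (by positivity)
  have k2 : sD q P σ l * (Real.sqrt x - u) ≤ 1 / 2 * (Real.sqrt x / (Real.log x) ^ A) := by
    have e1 : sD q P σ l * (Real.sqrt x - u) ≤ 19 * Real.log L * (Real.sqrt x * (1 / R ^ ε)) :=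
      mul_le_mul hs (hd2.trans hd3) (by linarith) (by positivity)
    refine e1.trans ?_
    have e2 : 38 * Real.log R * (Real.log x) ^ A ≤ R ^ ε := by
      have e3 : (Real.log x) ^ A ≤ (3 * Real.log R) ^ A := pow_le_pow_left₀ (by linarith) hlogx A
      rw [mul_pow] at e3
      have e4 : R ^ (ε / 2) ≤ R ^ ε := Real.rpow_le_rpow_of_exponent_le hR1 (by linarith)
      calc 38 * Real.log R * (Real.log x) ^ A ≤ 40 * Real.log R * (3 ^ A * (Real.log R) ^ A) := by
            refine mul_le_mul (by linarith) e3 (by positivity) (by positivity)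
        _ = 40 * 3 ^ A * (Real.log R) ^ (A + 1) := by ring
        _ ≤ R ^ (ε / 2) := h4
        _ ≤ R ^ ε := e4
    have e5 : 0 < R ^ ε := by positivity
    have e6 : 19 * Real.log L * (Real.sqrt x * (1 / R ^ ε)) ≤ 19 * Real.log R * (Real.sqrt x * (1 / R ^ ε)) := by
      gcongr
    refine e6.trans ?_
    have e7 : 19 * Real.log R * (Real.sqrt x * (1 / R ^ ε)) = 19 * Real.log R * Real.sqrt x / R ^ ε := by ring
    rw [e7, mul_div_assoc', div_le_div_iff₀ e5 (by positivity)]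
    calc 19 * Real.log R * Real.sqrt x * (Real.log x) ^ A = 1 / 2 * Real.sqrt x * (38 * Real.log R * (Real.log x) ^ A) := by
          ring
      _ ≤ 1 / 2 * Real.sqrt x * R ^ ε := mul_le_mul_of_nonneg_left e2 (by positivity)
  have k3 : |sD q P σ l * (∫ t in (2 : ℝ)..u, 1 / (2 * Real.log t)) -
      sD q P σ l * ∫ t in (2 : ℝ)..(Real.sqrt x), 1 / (2 * Real.log t)| ≤ sD q P σ l * (Real.sqrt x - u) := by
    rw [← mul_sub, abs_mul, abs_of_nonneg hs0, abs_sub_comm]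
    exact mul_le_mul_of_nonneg_left hd1 hs0
  have k4 := abs_add_le (PP (cD P σ l) l ⌊u⌋₊ - sD q P σ l * ∫ t in (2 : ℝ)..u, 1 / (2 * Real.log t))
    (sD q P σ l * (∫ t in (2 : ℝ)..u, 1 / (2 * Real.log t)) -
      sD q P σ l * ∫ t in (2 : ℝ)..(Real.sqrt x), 1 / (2 * Real.log t))
  rw [sub_add_sub_cancel] at k4
  linarith

open Classical in
/-- **almost all `a`** -/
theorem lt_all {q : ℕ} {P : ℤ → ℤ → Prop} (hN : Cnd q P) (ε : ℝ) (A : ℕ) (hε : 0 < ε) : ∃ R₀ : ℝ, ∀ R : ℝ, R₀ ≤ R →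
    (((Icc ⌈-(R / 2)⌉ ⌊R / 2⌋).filter (fun a : ℤ => ¬ Tr q P ε A R a)).card : ℝ) ≤ R / (Real.log R) ^ A := by
  by_cases hε2 : 1 / 2 < ε
  · -- the interval is empty
    refine ⟨3, fun R hR => ?_⟩
    rw [filter_false_of_mem]
    · rw [card_empty]
      have : 0 ≤ Real.log R := Real.log_nonneg (by linarith)
      push_cast
      positivity
    · intro l _
      rw [not_not]
      intro x h1 h2
      exfalso
      have h3 : R ^ (3 - ε) < R ^ (2 + ε) := Real.rpow_lt_rpow_of_exponent_lt (by linarith) (by linarith)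
      linarith
  push Not at hε2
  obtain ⟨R₁, h1⟩ := good_tr hN ε A hε hε2
  obtain ⟨L₁, hL₁, g1⟩ := almost_D hN 1 (by norm_num) (ε / 4) (A + 1) (by positivity) (by linarith)
  obtain ⟨L₂, hL₂, g2⟩ := almost_D hN (-1) (by norm_num) (ε / 4) (A + 1) (by positivity) (by linarith)
  obtain ⟨R₂, h2⟩ := eventually_atTop.1 (((ev_log_pow 1 (4 * 2 ^ A) one_pos 0).and (ev_log_rpow 1 one_pos A 2)).and
    (eventually_ge_atTop (16 : ℝ)))
  refine ⟨max (max R₁ R₂) (2 * max L₁ L₂), fun R hR => ?_⟩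
  have hRR1 : R₁ ≤ R := ((le_max_left _ _).trans (le_max_left _ _)).trans hR
  have hRR2 : R₂ ≤ R := ((le_max_right _ _).trans (le_max_left _ _)).trans hR
  have hRR3 : 2 * max L₁ L₂ ≤ R := (le_max_right _ _).trans hR
  obtain ⟨⟨h3, h4⟩, hR16⟩ := h2 R hRR2
  rw [zero_add, pow_one, one_mul] at h3
  rw [Real.rpow_one] at h4
  have hR0 : 0 < R := by linarith
  have hR1 : 1 ≤ R := by linarith
  have hL1 : L₁ ≤ R / 2 := by
    have := le_max_left L₁ L₂
    linarith
  have hL2 : L₂ ≤ R / 2 := by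
    have := le_max_right L₁ L₂
    linarith
  have k1 := g1 (R / 2) hL1
  have k2 := g2 (R / 2) hL2
  set B1 := (Icc 1 ⌊R / 2⌋₊).filter (fun l : ℕ => ¬ GoodD q P 1 (ε / 4) (A + 1) (R / 2) l) with hB1
  set B2 := (Icc 1 ⌊R / 2⌋₊).filter (fun l : ℕ => ¬ GoodD q P (-1) (ε / 4) (A + 1) (R / 2) l) with hB2
  have hsub : (Icc ⌈-(R / 2)⌉ ⌊R / 2⌋).filter (fun a : ℤ => ¬ Tr q P ε A R a) ⊆
      {0} ∪ (B1.image (fun l : ℕ => (1 * l : ℤ)) ∪ B2.image (fun l : ℕ => (-1 * l : ℤ))) := by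
    intro r hr
    rw [mem_filter, mem_box2] at hr
    obtain ⟨hrR, hr⟩ := hr
    rw [mem_union, mem_singleton, mem_union]
    by_cases hr0 : r = 0
    · left
      exact hr0
    right
    set l : ℕ := r.natAbs with hl
    have hl1 : 1 ≤ l := by omega
    have hlR : (l : ℝ) ≤ R / 2 := by
      have e2 : (l : ℝ) = |(r : ℝ)| := by
        rw [hl, Nat.cast_natAbs, Int.cast_abs]
      rw [e2]
      exact hrR
    have hmem : l ∈ Icc 1 ⌊R / 2⌋₊ := by
      rw [mem_Icc]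
      exact ⟨hl1, Nat.le_floor hlR⟩
    rcases lt_or_gt_of_ne hr0 with h | h
    · right
      rw [mem_image]
      refine ⟨l, ?_, by omega⟩
      rw [hB2, mem_filter]
      refine ⟨hmem, fun hg => hr ?_⟩
      have := h1 R hRR1 (-1) l (Or.inr rfl) hl1 hlR hg
      have e1 : (-1 * l : ℤ) = r := by omega
      rwa [e1] at this
    · left
      rw [mem_image]
      refine ⟨l, ?_, by omega⟩
      rw [hB1, mem_filter]
      refine ⟨hmem, fun hg => hr ?_⟩
      have := h1 R hRR1 1 l (Or.inl rfl) hl1 hlR hg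
      have e1 : (1 * l : ℤ) = r := by omega
      rwa [e1] at this
  have hcard : (((Icc ⌈-(R / 2)⌉ ⌊R / 2⌋).filter (fun a : ℤ => ¬ Tr q P ε A R a)).card : ℝ) ≤ 1 + (B1.card + B2.card) := by
    have e1 := (card_le_card hsub).trans ((card_union_le _ _).trans (add_le_add_right ((card_union_le _ _).trans
      (add_le_add card_image_le card_image_le)) _))
    rw [card_singleton] at e1
    exact_mod_cast e1
  refine hcard.trans ?_
  have hlogR : 1 ≤ Real.log R := by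
    rw [Real.le_log_iff_exp_le hR0]
    have := Real.exp_one_lt_d9
    linarith
  have hlogL : Real.log R / 2 ≤ Real.log (R / 2) := by
    have e1 : Real.sqrt R ≤ R / 2 := by
      rw [Real.sqrt_le_left (by positivity)]
      nlinarith
    have e2 := Real.log_le_log (Real.sqrt_pos.2 hR0) e1
    rwa [Real.log_sqrt hR0.le] at e2
  set ℓ := Real.log R with hℓ
  have k3 : R / 2 / (Real.log (R / 2)) ^ (A + 1) ≤ 1 / 4 * (R / ℓ ^ A) := by
    have e1 : 2 * ℓ ^ A ≤ (Real.log (R / 2)) ^ (A + 1) := by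
      calc 2 * ℓ ^ A ≤ (ℓ / 2) ^ (A + 1) := by
            rw [div_pow, pow_succ ℓ A, le_div_iff₀ (by positivity)]
            have : 0 ≤ ℓ ^ A := by positivity
            calc 2 * ℓ ^ A * 2 ^ (A + 1) = ℓ ^ A * (4 * 2 ^ A) := by ring
              _ ≤ ℓ ^ A * ℓ := mul_le_mul_of_nonneg_left h3 this
        _ ≤ _ := pow_le_pow_left₀ (by positivity) hlogL _
    have e2 : 0 < Real.log (R / 2) := by linarith
    rw [mul_div_assoc', div_le_div_iff₀ (by positivity) (by positivity)]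
    calc R / 2 * ℓ ^ A = 1 / 4 * R * (2 * ℓ ^ A) := by ring
      _ ≤ 1 / 4 * R * (Real.log (R / 2)) ^ (A + 1) := mul_le_mul_of_nonneg_left e1 (by positivity)
  have k4 : 1 ≤ 1 / 2 * (R / ℓ ^ A) := by
    rw [mul_div_assoc', le_div_iff₀ (by positivity)]
    linarith
  linarith

end Pool.Agent.U239.LQ
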