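import Pool.Agent.U239.LQ.GenB

/-!
# A lower bound for the constants, and the least prime
-/

set_option autoImplicit false

namespace Pool.Agent.U239.LQ

open Finset Filter Topology Pool.Agent.N782.GN

/-- the product of `p / (p - 1)` over distinct numbers `p ≥ 2` -/
theorem prod_ratio_le (S : Finset ℕ) (hS : ∀ p ∈ S, 2 ≤ p) :
    ∏ p ∈ S, ((p : ℝ) / ((p : ℝ) - 1)) ≤ S.card + 1 := by
  induction S using Finset.induction_on_max with
  | empty => simp
  | insert a s ha ih =>
    have hna : a ∉ s := fun h => (ha a h).false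
    rw [prod_insert hna, card_insert_of_notMem hna]
    have hs : s ⊆ Ico 2 a := fun x hx => mem_Ico.2 ⟨hS x (mem_insert_of_mem hx), ha x hx⟩
    have h1 : s.card ≤ a - 2 := by
      have := card_le_card hs
      rwa [Nat.card_Ico] at this
    have h2 : 2 ≤ a := hS a (mem_insert_self _ _)
    have h3 := ih (fun p hp => hS p (mem_insert_of_mem hp))
    have h4 : (s.card : ℝ) + 2 ≤ a := by
      have : s.card + 2 ≤ a := by omega
      exact_mod_cast this
    have h5 : (0 : ℝ) < (a : ℝ) - 1 := by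
      have : (2 : ℝ) ≤ a := by exact_mod_cast h2
      linarith
    have h6 : (0 : ℝ) ≤ (a : ℝ) / ((a : ℝ) - 1) := by positivity
    refine (mul_le_mul_of_nonneg_left h3 h6).trans ?_
    rw [div_mul_eq_mul_div, div_le_iff₀ h5]
    push_cast
    nlinarith

/-- the number of the prime factors -/
theorem card_primeFactors_le {n : ℕ} (hn : n ≠ 0) : (n.primeFactors.card : ℝ) ≤ Real.log n / Real.log 2 := by
  have h1 : 2 ^ n.primeFactors.card ≤ n := by
    calc 2 ^ n.primeFactors.card = ∏ _p ∈ n.primeFactors, 2 := by rw [prod_const]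
      _ ≤ ∏ p ∈ n.primeFactors, p := by
          apply Finset.prod_le_prod
          · intro i _
            omega
          · intro i hi
            exact (Nat.prime_of_mem_primeFactors hi).two_le
      _ ≤ n := Nat.le_of_dvd (by omega) (Nat.prod_primeFactors_dvd n)
  have h2 : (0 : ℝ) < Real.log 2 := Real.log_pos (by norm_num)
  rw [le_div_iff₀ h2]
  have h3 : ((2 : ℝ)) ^ n.primeFactors.card ≤ n := by exact_mod_cast h1
  have h4 := Real.log_le_log (by positivity) h3
  rwa [Real.log_pow] at h4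

/-- the factor at an odd prime -/
theorem factor_le {p : ℕ} (h3 : 3 ≤ p) :
    0 < 1 - ((ZMod.χ₄ (p : ZMod 4) : ℤ) : ℝ) / ((p : ℝ) - 1) ∧
    1 - ((ZMod.χ₄ (p : ZMod 4) : ℤ) : ℝ) / ((p : ℝ) - 1) ≤ (p : ℝ) / ((p : ℝ) - 1) := by
  have h3' : (3 : ℝ) ≤ p := by exact_mod_cast h3
  have h4 : ((ZMod.χ₄ (p : ZMod 4) : ℤ) : ℝ) ≤ 1 ∧ -1 ≤ ((ZMod.χ₄ (p : ZMod 4) : ℤ) : ℝ) := by
    have : (ZMod.χ₄ (p : ZMod 4) : ℤ) ≤ 1 ∧ -1 ≤ (ZMod.χ₄ (p : ZMod 4) : ℤ) := by
      rw [ZMod.χ₄_nat_eq_if_mod_four]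
      split_ifs <;> norm_num
    exact ⟨by exact_mod_cast this.1, by exact_mod_cast this.2⟩
  have h5 : (0 : ℝ) < (p : ℝ) - 1 := by linarith
  constructor
  · rw [sub_pos, div_lt_one h5]
    linarith
  · rw [le_div_iff₀ h5, sub_mul, div_mul_cancel₀ _ h5.ne']
    linarith

/-- the products over sets of odd primes -/
theorem prod_factor_le (S : Finset ℕ) (hS : ∀ p ∈ S, 3 ≤ p) :
    ∏ p ∈ S, (1 - ((ZMod.χ₄ (p : ZMod 4) : ℤ) : ℝ) / ((p : ℝ) - 1)) ≤ S.card + 1 := by
  refine (Finset.prod_le_prod (fun p hp => (factor_le (hS p hp)).1.le)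
    (fun p hp => (factor_le (hS p hp)).2)).trans (prod_ratio_le S fun p hp => ?_)
  have := hS p hp
  omega

/-- the singular series -/
theorem SS_ge (l : ℤ) (hl : l ≠ 0) : SS 1 ≤ SS l * (l.natAbs.primeFactors.card + 1) := by
  obtain ⟨h1, -⟩ := c_ssl 1 one_ne_zero
  obtain ⟨h2, -⟩ := c_ssl l hl
  refine le_of_tendsto_of_tendsto' h1 (h2.mul_const _) fun z => ?_
  have h3 : pp 1 z = pp l z * ∏ p ∈ (Icc 3 z).filter (fun p : ℕ => p.Prime ∧ (p : ℤ) ∣ l),
      (1 - ((ZMod.χ₄ (p : ZMod 4) : ℤ) : ℝ) / ((p : ℝ) - 1)) := by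
    unfold pp
    rw [← prod_union]
    · refine prod_congr ?_ (fun _ _ => rfl)
      ext p
      simp only [mem_filter, mem_union, mem_Icc]
      constructor
      · rintro ⟨h4, h5, -⟩
        by_cases h6 : (p : ℤ) ∣ l
        · exact Or.inr ⟨h4, h5, h6⟩
        · exact Or.inl ⟨h4, h5, h6⟩
      · have key : p.Prime → ¬ (p : ℤ) ∣ 1 := by
          intro hp hd
          have : p ∣ 1 := by exact_mod_cast hd
          exact hp.one_lt.ne' (Nat.dvd_one.1 this)
        rintro (⟨h4, h5, -⟩ | ⟨h4, h5, -⟩)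
        · exact ⟨h4, h5, key h5⟩
        · exact ⟨h4, h5, key h5⟩
    · rw [disjoint_left]
      intro p h4 h5
      rw [mem_filter] at h4 h5
      exact h4.2.2 h5.2.2
  rw [h3]
  refine mul_le_mul_of_nonneg_left ?_ (Pool.Agent.N407.GN.pp_pos l z).le
  refine (prod_factor_le _ fun p hp => (mem_Icc.1 (mem_filter.1 hp).1).1).trans ?_
  have h6 : ((Icc 3 z).filter (fun p : ℕ => p.Prime ∧ (p : ℤ) ∣ l)).card ≤ l.natAbs.primeFactors.card := by
    apply card_le_card
    intro p hp
    rw [mem_filter] at hp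
    rw [Nat.mem_primeFactors]
    exact ⟨hp.2.1, Int.natCast_dvd.1 hp.2.2, by omega⟩
  have h7 : (((Icc 3 z).filter (fun p : ℕ => p.Prime ∧ (p : ℤ) ∣ l)).card : ℝ) ≤ l.natAbs.primeFactors.card := by
    exact_mod_cast h6
  linarith

open Classical in
/-- **the lower bound for the constant** -/
theorem cst_ge {q : ℕ} {P : ℤ → ℤ → Prop} (hq : 1 ≤ q) : ∃ K : ℝ, 0 < K ∧ ∀ a : ℤ, a ≠ 0 → 0 < (cl q P a).card →
    K ≤ cst q P a * (1 + Real.log (a.natAbs : ℝ) / Real.log 2) := by
  obtain ⟨-, hS⟩ := c_ssl 1 one_ne_zero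
  have hφ : (0 : ℝ) < (Nat.totient q : ℝ) := by
    have : 0 < Nat.totient q := Nat.totient_pos.2 (by omega)
    exact_mod_cast this
  have hq0 : (0 : ℝ) < (q : ℝ) := by
    have : 0 < q := by omega
    exact_mod_cast this
  refine ⟨SS 1 / ((Nat.totient q : ℝ) * (q.primeFactors.card + 1)), by positivity, fun a ha hcl => ?_⟩
  set l : ℤ := (a.natAbs : ℤ) with hl
  have hl0 : l ≠ 0 := by omega
  have hσ : (if 0 < a then (1 : ℤ) else -1) * l = a := by
    split_ifs with h
    · omega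
    · omega
  set F : Finset ℕ := q.primeFactors.filter (fun p : ℕ => p ≠ 2 ∧ ¬ (p : ℤ) ∣ l) with hF
  have hF3 : ∀ p ∈ F, 3 ≤ p := by
    intro p hp
    rw [hF, mem_filter] at hp
    have := (Nat.prime_of_mem_primeFactors hp.1).two_le
    have := hp.2.1
    omega
  set G : ℝ := ∏ p ∈ F, (1 - ((ZMod.χ₄ (p : ZMod 4) : ℤ) : ℝ) / ((p : ℝ) - 1)) with hG
  have hG0 : 0 < G := prod_pos fun p hp => (factor_le (hF3 p hp)).1
  have hG1 : G ≤ q.primeFactors.card + 1 := by
    refine (prod_factor_le F hF3).trans ?_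
    have : (F.card : ℝ) ≤ q.primeFactors.card := by exact_mod_cast card_le_card (filter_subset _ _)
    linarith
  have hcst : cst q P a = ((cl q P a).card : ℝ) / (Nat.totient q : ℝ) * (SS l / G) := by
    have : cst q P a = ((cl q P a).card : ℝ) / (q : ℝ) * ((q : ℝ) / (Nat.totient q : ℝ) / G * SS l) := by
      unfold cst sD
      rw [← hl, hσ]
      rfl
    rw [this]
    field_simp
  have h1 := SS_ge l hl0
  have h2 := card_primeFactors_le (n := a.natAbs) (by omega)
  have h3 : l.natAbs = a.natAbs := by omega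
  rw [h3] at h1
  obtain ⟨-, hSl⟩ := c_ssl l hl0
  have hn : (1 : ℝ) ≤ ((cl q P a).card : ℝ) := by exact_mod_cast hcl
  set w : ℝ := 1 + Real.log (a.natAbs : ℝ) / Real.log 2 with hw
  have h4 : SS 1 ≤ SS l * w := h1.trans (mul_le_mul_of_nonneg_left (by linarith) hSl.le)
  rw [hcst]
  have h5 : SS 1 / ((Nat.totient q : ℝ) * (q.primeFactors.card + 1)) ≤ SS 1 / ((Nat.totient q : ℝ) * G) := by
    apply div_le_div_of_nonneg_left hS.le (by positivity)
    exact mul_le_mul_of_nonneg_left hG1 hφ.le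
  refine h5.trans ?_
  have h6 : SS 1 / ((Nat.totient q : ℝ) * G) ≤ SS l * w / ((Nat.totient q : ℝ) * G) :=
    div_le_div_of_nonneg_right h4 (by positivity)
  refine h6.trans ?_
  have h7 : ((cl q P a).card : ℝ) / (Nat.totient q : ℝ) * (SS l / G) * w =
      ((cl q P a).card : ℝ) * (SS l * w / ((Nat.totient q : ℝ) * G)) := by
    field_simp
  rw [h7]
  have h8 : 0 ≤ SS l * w / ((Nat.totient q : ℝ) * G) := by
    have : 0 ≤ SS l * w := hS.le.trans h4
    positivity
  nlinarith

/-- a lower bound for the integral -/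
theorem int_ge {y : ℝ} (hy : 4 ≤ y) : y / (4 * Real.log y) ≤ ∫ t in (2 : ℝ)..y, 1 / (2 * Real.log t) := by
  have hcont : ContinuousOn (fun t : ℝ => 1 / (2 * Real.log t)) (Set.Ici 2) := by
    apply ContinuousOn.div continuousOn_const
    · apply ContinuousOn.mul continuousOn_const
      apply Real.continuousOn_log.mono
      intro x hx
      rw [Set.mem_compl_singleton_iff]
      rw [Set.mem_Ici] at hx
      linarith
    · intro x hx
      rw [Set.mem_Ici] at hx
      have := Real.log_pos (show (1 : ℝ) < x by linarith)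
      positivity
  have hii : IntervalIntegrable (fun t : ℝ => 1 / (2 * Real.log t)) MeasureTheory.volume 2 y := by
    apply (hcont.mono _).intervalIntegrable
    intro x hx
    rw [Set.mem_uIcc] at hx
    rw [Set.mem_Ici]
    rcases hx with h | h <;> linarith
  have hlog : 0 < Real.log y := Real.log_pos (by linarith)
  have h1 : ∫ t in (2 : ℝ)..y, 1 / (2 * Real.log y) ≤ ∫ t in (2 : ℝ)..y, 1 / (2 * Real.log t) := by
    apply intervalIntegral.integral_mono_on (by linarith) intervalIntegrable_const hii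
    intro t ht
    have h2 : 0 < Real.log t := Real.log_pos (by linarith [ht.1])
    have h3 : Real.log t ≤ Real.log y := Real.log_le_log (by linarith [ht.1]) ht.2
    apply one_div_le_one_div_of_le (by positivity)
    linarith
  refine le_trans ?_ h1
  rw [intervalIntegral.integral_const, smul_eq_mul, mul_one_div, div_le_div_iff₀ (by positivity) (by positivity)]
  nlinarith

open Classical in
/-- **the least prime** -/
theorem exists_small {q : ℕ} {P : ℤ → ℤ → Prop} (hq : 1 ≤ q) (ε : ℝ) (A : ℕ) (hε : 0 < ε) (hε2 : ε ≤ 1 / 2)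
    (hA : 3 ≤ A) : ∃ R₀ : ℝ, ∀ R : ℝ, R₀ ≤ R → ∀ a : ℤ, a ≠ 0 → |(a : ℝ)| ≤ R / 2 → 0 < (cl q P a).card →
      Tr q P ε A R a → 0 < piP P a (R ^ (2 + ε)) := by
  obtain ⟨K, hK, h⟩ := cst_ge (q := q) (P := P) hq
  refine ⟨max 16 (Real.exp (4 / K)), fun R hR a ha haR hcl hT => ?_⟩
  have hR16 : 16 ≤ R := (le_max_left _ _).trans hR
  have hRK : Real.exp (4 / K) ≤ R := (le_max_right _ _).trans hR
  have hR0 : 0 < R := by linarith
  have hlogK : 4 / K ≤ Real.log R := by
    rwa [Real.le_log_iff_exp_le hR0]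
  have hlog1 : 1 ≤ Real.log R := by
    rw [Real.le_log_iff_exp_le hR0]
    have := Real.exp_one_lt_d9
    linarith
  have hRR : R ^ (2 + ε) ≤ R ^ (3 - ε) := Real.rpow_le_rpow_of_exponent_le (by linarith) (by linarith)
  have key := hT (R ^ (2 + ε)) le_rfl hRR
  by_contra hcon
  have h0 : piP P a (R ^ (2 + ε)) = 0 := by omega
  rw [h0] at key
  set x : ℝ := R ^ (2 + ε) with hx
  have hlx : Real.log x = (2 + ε) * Real.log R := by rw [hx, Real.log_rpow hR0]
  have hx2 : R ^ 2 ≤ x := by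
    have : R ^ (2 : ℝ) ≤ R ^ (2 + ε) := Real.rpow_le_rpow_of_exponent_le (by linarith) (by linarith)
    rwa [Real.rpow_two] at this
  have hx0 : 0 < x := by positivity
  have hy : R ≤ Real.sqrt x := Real.le_sqrt_of_sq_le hx2
  have hy4 : 4 ≤ Real.sqrt x := by linarith
  have hI := int_ge hy4
  rw [Real.log_sqrt hx0.le] at hI
  have hlogx : 2 ≤ Real.log x := by
    rw [hlx]
    nlinarith
  have hIpos : 0 ≤ ∫ t in (2 : ℝ)..(Real.sqrt x), 1 / (2 * Real.log t) := by
    refine le_trans ?_ hI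
    positivity
  -- the constant
  have hc := h a ha hcl
  have hna : (a.natAbs : ℝ) = |(a : ℝ)| := by rw [Nat.cast_natAbs, Int.cast_abs]
  have hna1 : (1 : ℝ) ≤ (a.natAbs : ℝ) := by
    have : 1 ≤ a.natAbs := by omega
    exact_mod_cast this
  have hla : Real.log (a.natAbs : ℝ) ≤ Real.log R := by
    apply Real.log_le_log (by linarith)
    rw [hna]
    linarith
  have hla0 : 0 ≤ Real.log (a.natAbs : ℝ) := Real.log_nonneg hna1
  have hl2 := Real.log_two_gt_d9
  have hw : 1 + Real.log (a.natAbs : ℝ) / Real.log 2 ≤ 3 * Real.log R := by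
    have h1 : Real.log (a.natAbs : ℝ) / Real.log 2 ≤ 2 * Real.log R := by
      rw [div_le_iff₀ (by linarith)]
      nlinarith
    linarith
  have hw0 : 0 < 1 + Real.log (a.natAbs : ℝ) / Real.log 2 := by positivity
  have hcpos : 0 < cst q P a := by
    by_contra hcc
    push Not at hcc
    nlinarith
  have hc3 : K ≤ cst q P a * (3 * Real.log R) := hc.trans (mul_le_mul_of_nonneg_left hw hcpos.le)
  -- the contradiction
  rw [Nat.cast_zero, zero_sub, abs_neg, abs_of_nonneg (mul_nonneg hcpos.le hIpos)] at key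
  have hsx : 0 < Real.sqrt x := by linarith
  have k1 : cst q P a * (Real.sqrt x / (4 * (Real.log x / 2))) ≤ Real.sqrt x / Real.log x ^ A :=
    (mul_le_mul_of_nonneg_left hI hcpos.le).trans key
  have k2 : Real.sqrt x / Real.log x ^ A ≤ Real.sqrt x / Real.log x ^ 3 := by
    apply div_le_div_of_nonneg_left hsx.le (by positivity)
    exact pow_le_pow_right₀ (by linarith) hA
  have k3 := k1.trans k2
  have k4 : cst q P a * Real.log x ^ 2 ≤ 2 := by
    have e1 : cst q P a * (Real.sqrt x / (4 * (Real.log x / 2))) = (cst q P a * Real.log x ^ 2 / 2) * (Real.sqrt x / Real.log x ^ 3) := by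
      field_simp
      ring
    rw [e1] at k3
    have e2 : 0 < Real.sqrt x / Real.log x ^ 3 := by positivity
    have e3 : cst q P a * Real.log x ^ 2 / 2 ≤ 1 := by
      by_contra hh
      push Not at hh
      nlinarith
    linarith
  have k5 : 4 * Real.log R ^ 2 ≤ Real.log x ^ 2 := by
    rw [hlx]
    have : 0 ≤ ε := hε.le
    have : 2 * Real.log R ≤ (2 + ε) * Real.log R := by nlinarith
    calc 4 * Real.log R ^ 2 = (2 * Real.log R) ^ 2 := by ring
      _ ≤ _ := pow_le_pow_left₀ (by linarith) this 2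
  have k6 : 4 ≤ K * Real.log R := by
    rw [div_le_iff₀ hK] at hlogK
    linarith
  -- K log R ≤ 3 c (log R)² ≤ 3/4 · c (log x)² ≤ 3/2
  have k7 : K * Real.log R ≤ 3 * (cst q P a * Real.log R ^ 2) := by nlinarith
  have k8 : cst q P a * (4 * Real.log R ^ 2) ≤ 2 := (mul_le_mul_of_nonneg_left k5 hcpos.le).trans k4
  nlinarith

end Pool.Agent.U239.LQ
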