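import Pool.Agent.R441.Q4.J

/-!
# The quartic symbol of a fixed rational integer `D` is periodic modulo `16 D`
-/

set_option autoImplicit false

namespace Pool.Agent.U239.LQ

open Pool.Agent.R441.Q4

lemma two_dvd_of {β γ : ZI} (h : (2 : ZI) ∣ β - γ) : (β.re - γ.re) % 2 = 0 ∧ (β.im - γ.im) % 2 = 0 := by
  obtain ⟨k, hk⟩ := h
  have e1 := congrArg Zsqrtd.re hk
  have e2 := congrArg Zsqrtd.im hk
  have h2r : (2 : ZI).re = 2 := by decide
  have h2i : (2 : ZI).im = 0 := by decide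
  rw [Zsqrtd.re_sub, Zsqrtd.re_mul, h2r, h2i] at e1
  rw [Zsqrtd.im_sub, Zsqrtd.im_mul, h2r, h2i] at e2
  constructor
  · have : β.re - γ.re = 2 * k.re := by linarith
    omega
  · have : β.im - γ.im = 2 * k.im := by linarith
    omega

/-- congruences modulo a rational integer in coordinates -/
lemma int_dvd_of {n : ℤ} {β γ : ZI} (h : (n : ZI) ∣ β - γ) : n ∣ β.re - γ.re ∧ n ∣ β.im - γ.im := by
  have := (Zsqrtd.intCast_dvd n (β - γ)).1 h
  rwa [Zsqrtd.re_sub, Zsqrtd.im_sub] at this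

lemma od_iff {β : ZI} : Od β ↔ (β.re + β.im) % 2 = 1 := by
  unfold Od
  rw [norm_def']
  obtain ⟨r, hr⟩ : ∃ r, β.re = r := ⟨_, rfl⟩
  obtain ⟨s, hs⟩ : ∃ s, β.im = s := ⟨_, rfl⟩
  rw [hr, hs]
  rcases Int.emod_two_eq_zero_or_one r with h | h <;> rcases Int.emod_two_eq_zero_or_one s with h' | h' <;>
    simp [Int.add_emod, pow_two, Int.mul_emod, h, h']

lemma od_congr {β γ : ZI} (h : (2 : ZI) ∣ β - γ) (hb : Od β) : Od γ := by
  obtain ⟨h1, h2⟩ := two_dvd_of h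
  rw [od_iff] at hb ⊢
  omega

lemma ev_congr {β γ : ZI} (h : (2 : ZI) ∣ β - γ) (hb : Ev β) : Ev γ := by
  obtain ⟨h1, h2⟩ := two_dvd_of h
  have := hb.im
  exact ⟨od_congr h hb.od, by omega⟩

lemma norm_congr {n : ℤ} {β γ : ZI} (h : (n : ZI) ∣ β - γ) : n ∣ β.norm - γ.norm := by
  obtain ⟨⟨u, hu⟩, ⟨v, hv⟩⟩ := int_dvd_of h
  rw [norm_def', norm_def']
  refine ⟨u * (β.re + γ.re) + v * (β.im + γ.im), ?_⟩
  have h1 : β.re = γ.re + n * u := by linarith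
  have h2 : β.im = γ.im + n * v := by linarith
  rw [h1, h2]
  ring

/-- the symbol of `2` -/
lemma Q_two_congr {β γ : ZI} (hβ : Ev β) (h : ((16 : ℤ) : ZI) ∣ β - γ) : Q β 2 = Q γ 2 := by
  have h2 : (2 : ZI) ∣ β - γ := by
    refine Dvd.dvd.trans ⟨8, ?_⟩ h
    push_cast
    norm_num
  have hγ := ev_congr h2 hβ
  apply lg_inj (Q_norm hβ.od (cop_two hβ.od)) (Q_norm hγ.od (cop_two hγ.od))
  have h3 : L β 2 = L γ 2 := by
    rw [L_two hβ.od, L_two hγ.od, two_L_oi hβ, two_L_oi hγ, L_im hβ.od, L_im hγ.od]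
    obtain ⟨⟨u, hu⟩, ⟨v, hv⟩⟩ := int_dvd_of h
    obtain ⟨w, hw⟩ := norm_congr h
    have e1 : (β.re + β.im) % 8 = (γ.re + γ.im) % 8 := by omega
    have e2 : ((nrm β / 4 : ℕ) : ZMod 4) = ((nrm γ / 4 : ℕ) : ZMod 4) := by
      rw [ZMod.natCast_eq_natCast_iff']
      have k1 := nrm_cast β
      have k2 := nrm_cast γ
      have k3 : (nrm β : ℤ) = nrm γ + 16 * w := by linarith
      omega
    rw [e1, e2]
  exact h3

/-- the symbol of an odd number -/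
lemma Q_odd_congr {n : ℤ} (hn : n % 2 = 1) {β γ : ZI} (hβ : Ev β) (h4 : ((4 : ℤ) : ZI) ∣ β - γ)
    (h : (n : ZI) ∣ β - γ) (hc : IsCoprime (n : ZI) β) : Q β (n : ZI) = Q γ (n : ZI) := by
  have h2 : (2 : ZI) ∣ β - γ := by
    refine Dvd.dvd.trans ⟨2, ?_⟩ h4
    push_cast
    norm_num
  have hγ := ev_congr h2 hβ
  have hc' : IsCoprime (n : ZI) γ := cop_congr h hc
  rw [rec_rat' hn hβ hc, rec_rat' hn hγ hc', Q_per (ev_int hn).od h]
  obtain ⟨-, ⟨v, hv⟩⟩ := int_dvd_of h4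
  have e1 : β.im % 4 = γ.im % 4 := by omega
  rw [e1]

/-- **periodicity of the quartic symbol of `D`** -/
theorem Q_congr {D : ℤ} (hD : D ≠ 0) {β γ : ZI} (hβ : Od β) (hc : IsCoprime β (D : ZI))
    (h : ((16 * D : ℤ) : ZI) ∣ β - γ) : Od γ ∧ IsCoprime γ (D : ZI) ∧ Q β (D : ZI) = Q γ (D : ZI) := by
  have hD' : (D : ZI) ∣ β - γ := Dvd.dvd.trans ⟨16, by push_cast; ring⟩ h
  have h16 : ((16 : ℤ) : ZI) ∣ β - γ := Dvd.dvd.trans ⟨D, by push_cast; ring⟩ h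
  have h2 : (2 : ZI) ∣ β - γ := Dvd.dvd.trans ⟨8 * D, by push_cast; ring⟩ h
  have hγ := od_congr h2 hβ
  have hcγ : IsCoprime γ (D : ZI) := (cop_congr hD' hc.symm).symm
  refine ⟨hγ, hcγ, ?_⟩
  obtain ⟨w, hw, hE⟩ := exists_ev hβ
  have hA : Associated β (w * β) := by
    have hu := isUnit_iff_norm.2 hw
    rw [mul_comm]
    exact (associated_mul_unit_right β w hu)
  have hA' : Associated γ (w * γ) := by
    have hu := isUnit_iff_norm.2 hw
    rw [mul_comm]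
    exact (associated_mul_unit_right γ w hu)
  rw [Q_assoc hA, Q_assoc hA']
  have hd : w * β - w * γ = w * (β - γ) := by ring
  have hE' : Ev (w * γ) := ev_congr (by rw [hd]; exact Dvd.dvd.mul_left h2 w) hE
  obtain ⟨k, n, hkn, hn⟩ := int_two_pow hD
  have hDn : (D : ZI) = 2 ^ k * (n : ZI) := by rw [hkn]; push_cast; ring
  have hnβ : IsCoprime (n : ZI) (w * β) := by
    have h1 : IsCoprime (D : ZI) β := hc.symm
    rw [hDn] at h1
    exact IsCoprime.mul_right (cop_unit hw _) h1.of_mul_left_right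
  have h4 : ((4 : ℤ) : ZI) ∣ β - γ := Dvd.dvd.trans ⟨4 * (D : ZI), by push_cast; ring⟩ h
  have hn' : (n : ZI) ∣ β - γ := Dvd.dvd.trans ⟨2 ^ k, by rw [hDn]; ring⟩ hD'
  rw [hDn, Q_mul hE.od, Q_mul hE'.od, Q_pow hE.od, Q_pow hE'.od,
    Q_two_congr hE (by rw [hd]; exact Dvd.dvd.mul_left h16 w),
    Q_odd_congr hn hE (by rw [hd]; exact Dvd.dvd.mul_left h4 w) (by rw [hd]; exact Dvd.dvd.mul_left hn' w) hnβ]

end Pool.Agent.U239.LQ
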