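import Pool.Agent.U239.LQ.Trace

/-!
# The primes with a given trace are the primes `a² + m²` with `m` in certain classes
-/

set_option autoImplicit false

namespace Pool.Agent.U239.LQ

open Pool.Agent.R441.Q4
open Pool.Agent.H304R2.EC Pool.Agent.H304R2.EC.Pts
open Finset
open Pool.Agent.N782.GN.LT (prime_ne_sq chi_pm)

/-- the number of the solutions of `y² = x³ - D x` modulo `p` -/
def pts (D : ℤ) (p : ℕ) : ℕ :=
  ((range p ×ˢ range p).filter
    (fun xy : ℕ × ℕ => (p : ℤ) ∣ (xy.2 : ℤ) ^ 2 - ((xy.1 : ℤ) ^ 3 - D * (xy.1 : ℤ)))).card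

/-- the trace of Frobenius of `y² = x³ - D x` at `p` -/
def tr (D : ℤ) (p : ℕ) : ℤ := (p : ℤ) - pts D p

theorem tr_eq_SS {p : ℕ} [hF : Fact p.Prime] (D : ℤ) (h2 : p ≠ 2) : tr D p = - SS (D : ZMod p) := by
  have hcard : ((pts D p : ℕ) : ℤ) =
      ∑ x : ZMod p, (((univ : Finset (ZMod p)).filter fun y => y ^ 2 = x ^ 3 - (D : ZMod p) * x).card : ℤ) := by
    unfold pts
    rw [← Nat.cast_sum, ← Finset.card_sigma]
    congr 1
    refine Finset.card_bij' (fun xy _ => (⟨(xy.1 : ZMod p), (xy.2 : ZMod p)⟩ : Σ _ : ZMod p, ZMod p))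
      (fun q _ => (q.1.val, q.2.val)) ?_ ?_ ?_ ?_
    · rintro ⟨x, y⟩ h
      simp only [mem_filter, mem_product, mem_range] at h
      simp only [mem_sigma, mem_univ, mem_filter, true_and]
      obtain ⟨_, h⟩ := h
      rw [← ZMod.intCast_zmod_eq_zero_iff_dvd] at h
      push_cast at h
      linear_combination h
    · rintro ⟨x, y⟩ h
      simp only [mem_sigma, mem_univ, mem_filter, true_and] at h
      simp only [mem_filter, mem_product, mem_range]
      refine ⟨⟨ZMod.val_lt _, ZMod.val_lt _⟩, ?_⟩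
      rw [← ZMod.intCast_zmod_eq_zero_iff_dvd]
      push_cast
      simp only [ZMod.natCast_val, ZMod.cast_id', id_eq]
      linear_combination h
    · rintro ⟨x, y⟩ h
      simp only [mem_filter, mem_product, mem_range] at h
      simp only [Prod.mk.injEq]
      exact ⟨ZMod.val_cast_of_lt h.1.1, ZMod.val_cast_of_lt h.1.2⟩
    · rintro ⟨x, y⟩ h
      simp
  have hfib : ∀ x : ZMod p, (((univ : Finset (ZMod p)).filter fun y => y ^ 2 = x ^ 3 - (D : ZMod p) * x).card : ℤ) =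
      qc p (x * (x ^ 2 - (D : ZMod p))) + 1 := by
    intro x
    have := quadraticChar_card_sqrts (rc h2) (x ^ 3 - (D : ZMod p) * x)
    have e : x * (x ^ 2 - (D : ZMod p)) = x ^ 3 - (D : ZMod p) * x := by ring
    rw [e, ← this]
    congr 2
    ext y
    simp
  unfold tr
  rw [hcard]
  simp_rw [hfib]
  rw [Finset.sum_add_distrib, sum_const, card_univ, ZMod.card]
  unfold SS
  simp only [nsmul_eq_mul, mul_one]
  ring

/-- `w ≡ 1` modulo `2 + 2 i` -/
def Prim (w : ZI) : Prop := w.im % 2 = 0 ∧ (w.re + w.im) % 4 = 1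

/-- the condition on `z = a + m i` modulo `16 D`: `z` is odd and coprime to `D`, and `z (D / z)₄ ≡ 1` modulo `2 + 2 i` -/
def PD (D a m : ℤ) : Prop :=
  Od (⟨a, m⟩ : ZI) ∧ IsCoprime (⟨a, m⟩ : ZI) (D : ZI) ∧ Prim (⟨a, m⟩ * Q (⟨a, m⟩ : ZI) (D : ZI))

lemma prim_star {w : ZI} : Prim (star w) ↔ Prim w := by
  unfold Prim
  rw [Zsqrtd.re_star, Zsqrtd.im_star]
  constructor
  · rintro ⟨h1, h2⟩
    constructor <;> omega
  · rintro ⟨h1, h2⟩
    constructor <;> omega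

lemma not_dvd_of {p : ℕ} (hp : p.Prime) (h2 : p ≠ 2) {a m D : ℤ} (h : a ^ 2 + m ^ 2 = p) (hD : ¬ (p : ℤ) ∣ D) :
    ¬ (⟨a, m⟩ : ZI) ∣ (D : ZI) := by
  intro hd
  have hop := op_of_norm hp h2 h
  have h1 : star (⟨a, m⟩ : ZI) ∣ (D : ZI) := by
    have := star_dvd hd
    rwa [star_intCast] at this
  have h3 : (⟨a, m⟩ : ZI).norm ∣ (D : ZI).norm := by
    obtain ⟨k, hk⟩ := hd
    rw [hk, Zsqrtd.norm_mul]
    exact dvd_mul_right _ _
  rw [Zsqrtd.norm_intCast] at h3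
  have h4 : (⟨a, m⟩ : ZI).norm = p := by
    rw [norm_def']
    exact h
  rw [h4] at h3
  rcases (Nat.prime_iff_prime_int.1 hp).dvd_or_dvd h3 with h5 | h5 <;> exact hD h5

/-- the trace at `p = a² + m²` -/
theorem tr_iff {D : ℤ} {a m : ℤ} {p : ℕ} (hp : p.Prime) (h2 : p ≠ 2) (h : a ^ 2 + m ^ 2 = p)
    (hD : ¬ (p : ℤ) ∣ D) : tr D p = 2 * a ↔ PD D a m := by
  have : Fact p.Prime := ⟨hp⟩
  have hop := op_of_norm hp h2 h
  have hD0 : (D : ZMod p) ≠ 0 := by
    rw [Ne, ZMod.intCast_zmod_eq_zero_iff_dvd]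
    exact hD
  have hnd := not_dvd_of hp h2 h hD
  obtain ⟨hm0, ha0⟩ := prime_ne_sq hp h
  have hcop : IsCoprime (⟨a, m⟩ : ZI) (D : ZI) := (hop.pr.irreducible.coprime_iff_not_dvd).2 hnd
  have hodd : Od (⟨a, m⟩ : ZI) := hop.odd
  have hpar : (a + m) % 2 = 1 := by
    have := od_iff.1 hodd
    exact this
  have hPD : PD D a m ↔ Prim (⟨a, m⟩ * q4 (⟨a, m⟩ : ZI) (D : ZI)) := by
    unfold PD
    rw [Q_prime hop.pr]
    tauto
  rw [hPD, tr_eq_SS D h2]
  have hun := unit_cases (q4_norm hop hnd)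
  rcases Int.emod_two_eq_zero_or_one m with hm | hm
  · -- `m` even
    have ha : a % 2 = 1 := by omega
    rw [SS_eq h2 h ha hm hD0]
    set s : ℤ := ZMod.χ₄ ((a + m : ℤ) : ZMod 4) with hs
    have hs4 : ((a + m) % 4 = 1 ∧ s = 1) ∨ ((a + m) % 4 = 3 ∧ s = -1) := by
      have h1 : (a + m) % 4 = 1 ∨ (a + m) % 4 = 3 := by omega
      rcases h1 with h1 | h1
      · exact Or.inl ⟨h1, ZMod.χ₄_int_one_mod_four h1⟩
      · exact Or.inr ⟨h1, ZMod.χ₄_int_three_mod_four h1⟩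
    rcases hun with hu | hu | hu | hu <;> rw [hu]
    · have e1 : (star (1 : ZI) * (⟨a, m⟩ : ZI)).re = a := by simp
      have e2 : Prim ((⟨a, m⟩ : ZI) * 1) ↔ (a + m) % 4 = 1 := by
        rw [mul_one]
        unfold Prim
        constructor
        · exact fun h => h.2
        · exact fun h => ⟨hm, h⟩
      rw [e1, e2]
      rcases hs4 with ⟨h3, h4⟩ | ⟨h3, h4⟩ <;> rw [h4] <;> omega
    · have e1 : (star (im1 : ZI) * (⟨a, m⟩ : ZI)).re = m := by
        have : star im1 = (⟨0, -1⟩ : ZI) := by decide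
        rw [this, Zsqrtd.re_mul]
        ring
      have e2 : ¬ Prim ((⟨a, m⟩ : ZI) * im1) := by
        unfold Prim im1
        rw [Zsqrtd.im_mul, Zsqrtd.re_mul]
        simp only
        rintro ⟨h5, -⟩
        omega
      rw [e1]
      simp only [e2, iff_false]
      rcases hs4 with ⟨h3, h4⟩ | ⟨h3, h4⟩ <;> rw [h4] <;> omega
    · have e1 : (star (-1 : ZI) * (⟨a, m⟩ : ZI)).re = -a := by
        have : star (-1 : ZI) = -1 := by decide
        rw [this, neg_one_mul]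
        rfl
      have e2 : Prim ((⟨a, m⟩ : ZI) * -1) ↔ (a + m) % 4 = 3 := by
        rw [mul_neg_one]
        unfold Prim
        show (-m) % 2 = 0 ∧ (-a + -m) % 4 = 1 ↔ _
        constructor
        · rintro ⟨h5, h6⟩
          omega
        · intro h5
          constructor <;> omega
      rw [e1, e2]
      rcases hs4 with ⟨h3, h4⟩ | ⟨h3, h4⟩ <;> rw [h4] <;> omega
    · have e1 : (star (-im1 : ZI) * (⟨a, m⟩ : ZI)).re = -m := by
        have : star (-im1) = (⟨0, 1⟩ : ZI) := by decide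
        rw [this, Zsqrtd.re_mul]
        ring
      have e2 : ¬ Prim ((⟨a, m⟩ : ZI) * -im1) := by
        unfold Prim im1
        rw [mul_neg]
        show ¬ ((-(_ : ZI)).im % 2 = 0 ∧ _)
        rw [Zsqrtd.im_neg, Zsqrtd.im_mul]
        simp only
        rintro ⟨h5, -⟩
        omega
      rw [e1]
      simp only [e2, iff_false]
      rcases hs4 with ⟨h3, h4⟩ | ⟨h3, h4⟩ <;> rw [h4] <;> omega
  · -- `m` odd
    have ha : a % 2 = 0 := by omega
    have h' : (-m) ^ 2 + a ^ 2 = p := by rw [← h]; ring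
    have hass : Associated (⟨a, m⟩ : ZI) (⟨-m, a⟩ : ZI) := by
      refine ⟨Units.mk im1 (-im1) (by decide) (by decide), ?_⟩
      show (⟨a, m⟩ : ZI) * im1 = ⟨-m, a⟩
      unfold im1
      ext
      · rw [Zsqrtd.re_mul]; ring
      · rw [Zsqrtd.im_mul]; ring
    rw [SS_eq h2 h' (by omega) ha hD0, ← q4_assoc hass]
    set s : ℤ := ZMod.χ₄ ((-m + a : ℤ) : ZMod 4) with hs
    have hs4 : ((-m + a) % 4 = 1 ∧ s = 1) ∨ ((-m + a) % 4 = 3 ∧ s = -1) := by
      have h1 : (-m + a) % 4 = 1 ∨ (-m + a) % 4 = 3 := by omega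
      rcases h1 with h1 | h1
      · exact Or.inl ⟨h1, ZMod.χ₄_int_one_mod_four h1⟩
      · exact Or.inr ⟨h1, ZMod.χ₄_int_three_mod_four h1⟩
    rcases hun with hu | hu | hu | hu <;> rw [hu]
    · have e1 : (star (1 : ZI) * (⟨-m, a⟩ : ZI)).re = -m := by simp
      have e2 : ¬ Prim ((⟨a, m⟩ : ZI) * 1) := by
        rw [mul_one]
        unfold Prim
        rintro ⟨h5, -⟩
        have h5 : m % 2 = 0 := h5
        omega
      rw [e1]
      simp only [e2, iff_false]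
      rcases hs4 with ⟨h3, h4⟩ | ⟨h3, h4⟩ <;> rw [h4] <;> omega
    · have e1 : (star (im1 : ZI) * (⟨-m, a⟩ : ZI)).re = a := by
        have : star im1 = (⟨0, -1⟩ : ZI) := by decide
        rw [this, Zsqrtd.re_mul]
        ring
      have e2 : Prim ((⟨a, m⟩ : ZI) * im1) ↔ (-m + a) % 4 = 1 := by
        have : (⟨a, m⟩ : ZI) * im1 = ⟨-m, a⟩ := by
          unfold im1
          ext
          · rw [Zsqrtd.re_mul]; ring
          · rw [Zsqrtd.im_mul]; ring
        rw [this]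
        unfold Prim
        constructor
        · exact fun h => h.2
        · exact fun h => ⟨ha, h⟩
      rw [e1, e2]
      rcases hs4 with ⟨h3, h4⟩ | ⟨h3, h4⟩ <;> rw [h4] <;> omega
    · have e1 : (star (-1 : ZI) * (⟨-m, a⟩ : ZI)).re = m := by
        have : star (-1 : ZI) = -1 := by decide
        rw [this, neg_one_mul]
        show -(-m) = m
        ring
      have e2 : ¬ Prim ((⟨a, m⟩ : ZI) * -1) := by
        rw [mul_neg_one]
        unfold Prim
        rintro ⟨h5, -⟩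
        have h5 : (-m) % 2 = 0 := h5
        omega
      rw [e1]
      simp only [e2, iff_false]
      rcases hs4 with ⟨h3, h4⟩ | ⟨h3, h4⟩ <;> rw [h4] <;> omega
    · have e1 : (star (-im1 : ZI) * (⟨-m, a⟩ : ZI)).re = -a := by
        have : star (-im1) = (⟨0, 1⟩ : ZI) := by decide
        rw [this, Zsqrtd.re_mul]
        ring
      have e2 : Prim ((⟨a, m⟩ : ZI) * -im1) ↔ (-m + a) % 4 = 3 := by
        have : (⟨a, m⟩ : ZI) * -im1 = ⟨m, -a⟩ := by
          rw [mul_neg]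
          unfold im1
          ext
          · rw [Zsqrtd.re_neg, Zsqrtd.re_mul]; ring
          · rw [Zsqrtd.im_neg, Zsqrtd.im_mul]; ring
        rw [this]
        unfold Prim
        show (-a) % 2 = 0 ∧ (m + -a) % 4 = 1 ↔ _
        constructor
        · rintro ⟨h5, h6⟩
          omega
        · intro h5
          constructor <;> omega
      rw [e1, e2]
      rcases hs4 with ⟨h3, h4⟩ | ⟨h3, h4⟩ <;> rw [h4] <;> omega

/-- the trace vanishes at the primes `3` modulo `4` -/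
theorem tr_zero {D : ℤ} {p : ℕ} (hp : p.Prime) (h3 : p % 4 = 3) : tr D p = 0 := by
  have : Fact p.Prime := ⟨hp⟩
  have h2 : p ≠ 2 := by omega
  have hneg : qc p (-1) = -1 := by
    rw [quadraticChar_neg_one (rc h2), ZMod.card, ZMod.χ₄_nat_three_mod_four h3]
  have h1 : SS (D : ZMod p) = - SS (D : ZMod p) := by
    conv_lhs => unfold SS
    rw [← Equiv.sum_comp (Equiv.neg (ZMod p))]
    unfold SS
    rw [← Finset.sum_neg_distrib]
    refine Finset.sum_congr rfl fun x _ => ?_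
    have e : (Equiv.neg (ZMod p)) x * (((Equiv.neg (ZMod p)) x) ^ 2 - (D : ZMod p)) =
        -1 * (x * (x ^ 2 - (D : ZMod p))) := by
      show -x * ((-x) ^ 2 - (D : ZMod p)) = _
      ring
    rw [e, map_mul, hneg]
    ring
  rw [tr_eq_SS D h2]
  omega

/-- every odd prime of good reduction with a nonzero trace is a sum of two squares -/
theorem exists_rep_of_trace {D : ℤ} {p : ℕ} (hp : p.Prime) (hD : ¬ (p : ℤ) ∣ 2 * D) (hr : tr D p ≠ 0) :
    ∃ a m : ℤ, a ^ 2 + m ^ 2 = p ∧ 1 ≤ m ∧ tr D p = 2 * a := by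
  have : Fact p.Prime := ⟨hp⟩
  have h2 : p ≠ 2 := by
    rintro rfl
    exact hD (dvd_mul_right 2 D)
  have hD' : ¬ (p : ℤ) ∣ D := fun h => hD (Dvd.dvd.mul_left h 2)
  have hD0 : (D : ZMod p) ≠ 0 := by
    rw [Ne, ZMod.intCast_zmod_eq_zero_iff_dvd]
    exact hD'
  have h4 : p % 4 ≠ 3 := fun h => hr (tr_zero hp h)
  obtain ⟨u, v, huv⟩ := Nat.Prime.sq_add_sq h4
  have huvz : (u : ℤ) ^ 2 + (v : ℤ) ^ 2 = p := by exact_mod_cast huv
  obtain ⟨l, m, hlm, hl, hm⟩ : ∃ l m : ℤ, l ^ 2 + m ^ 2 = p ∧ l % 2 = 1 ∧ m % 2 = 0 := by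
    have hodd : (p : ℤ) % 2 = 1 := by
      have := hp.mod_two_eq_one_iff_ne_two.2 h2
      omega
    rcases Int.emod_two_eq_zero_or_one (u : ℤ) with h5 | h5 <;> rcases Int.emod_two_eq_zero_or_one (v : ℤ) with h6 | h6
    · exfalso
      rw [← huvz] at hodd
      simp [Int.add_emod, pow_two, Int.mul_emod, h5, h6] at hodd
    · exact ⟨v, u, by rw [← huvz]; ring, h6, h5⟩
    · exact ⟨u, v, huvz, h5, h6⟩
    · exfalso
      rw [← huvz] at hodd
      simp [Int.add_emod, pow_two, Int.mul_emod, h5, h6] at hodd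
  have hop := op_of_norm hp h2 hlm
  have hnd := not_dvd_of hp h2 hlm hD'
  have hun := q4_norm hop hnd
  set s : ℤ := ZMod.χ₄ ((l + m : ℤ) : ZMod 4) with hs
  have hs1 : s = 1 ∨ s = -1 := chi_pm (by omega)
  set w : ZI := (s : ZI) * (star (q4 ⟨l, m⟩ (D : ZI)) * (⟨l, m⟩ : ZI)) with hw
  have hwn : w.norm = p := by
    rw [hw, Zsqrtd.norm_mul, Zsqrtd.norm_mul, Zsqrtd.norm_conj, hun, Zsqrtd.norm_intCast, norm_def']
    show s * s * (1 * (l ^ 2 + m ^ 2)) = p
    rw [hlm]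
    rcases hs1 with h | h <;> rw [h] <;> ring
  have hwre : w.re = s * (star (q4 ⟨l, m⟩ (D : ZI)) * (⟨l, m⟩ : ZI)).re := by
    rw [hw, Zsqrtd.re_mul, Zsqrtd.re_intCast, Zsqrtd.im_intCast]
    ring
  have hwp : w.re ^ 2 + w.im ^ 2 = p := by
    rw [← norm_def', hwn]
  obtain ⟨h5, h6⟩ := prime_ne_sq hp hwp
  refine ⟨w.re, |w.im|, ?_, ?_, ?_⟩
  · rw [sq_abs]
    exact hwp
  · have := abs_pos.2 h5
    omega
  · rw [tr_eq_SS D h2, SS_eq h2 hlm hl hm hD0, hwre]
    ring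

open Classical in
/-- the number of the primes `p ≤ x` of good reduction with trace `r` -/
noncomputable def piD (D : ℤ) (r : ℤ) (x : ℝ) : ℕ :=
  ((range (⌊x⌋₊ + 1)).filter (fun p : ℕ => p.Prime ∧ ¬ (p : ℤ) ∣ 2 * D ∧ tr D p = r)).card

/-- if the trace is odd, there is no prime -/
theorem piD_zero (D : ℤ) (r : ℤ) (x : ℝ) (hr : r % 2 = 1) : piD D r x = 0 := by
  unfold piD
  rw [card_eq_zero, filter_eq_empty_iff]
  intro p _
  rintro ⟨hp, hD, ht⟩
  obtain ⟨a, m, -, -, h5⟩ := exists_rep_of_trace hp hD (by rw [ht]; omega)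
  rw [ht] at h5
  omega

lemma cop_prime {p : ℕ} (hp : p.Prime) (h2 : p ≠ 2) {a m D : ℤ} (h : a ^ 2 + m ^ 2 = p)
    (hc : IsCoprime (⟨a, m⟩ : ZI) (D : ZI)) : ¬ (p : ℤ) ∣ D := by
  intro hd
  have hop := op_of_norm hp h2 h
  apply hop.pr.not_isUnit
  apply hc.isUnit_of_dvd' dvd_rfl
  obtain ⟨k, rfl⟩ := hd
  refine ⟨star ⟨a, m⟩ * (k : ZI), ?_⟩
  rw [← mul_assoc, ← Zsqrtd.norm_eq_mul_conj, norm_def']
  show (((p : ℤ) * k : ℤ) : ZI) = ((a ^ 2 + m ^ 2 : ℤ) : ZI) * (k : ZI)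
  rw [h]
  push_cast
  ring

open Classical in
/-- the primes with trace `2 a` -/
theorem piD_eq (D : ℤ) (a : ℤ) (x : ℝ) (hx : 0 ≤ x) (ha : a ≠ 0) :
    piD D (2 * a) x = ((Icc 1 ⌊Real.sqrt (x - (a : ℝ) ^ 2)⌋₊).filter
      (fun m : ℕ => (a.natAbs ^ 2 + m ^ 2).Prime ∧ PD D a m)).card := by
  have hcast : ∀ m : ℕ, ((a.natAbs ^ 2 + m ^ 2 : ℕ) : ℤ) = a ^ 2 + (m : ℤ) ^ 2 := by
    intro m
    push_cast
    rw [sq_abs]
  have hfl : ∀ m : ℕ, 1 ≤ m → (m ≤ ⌊Real.sqrt (x - (a : ℝ) ^ 2)⌋₊ ↔ a.natAbs ^ 2 + m ^ 2 ≤ ⌊x⌋₊) := by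
    intro m hm
    have hm1 : (1 : ℝ) ≤ m := by exact_mod_cast hm
    rw [Nat.le_floor_iff (Real.sqrt_nonneg _), Nat.le_floor_iff hx, Real.le_sqrt' (by linarith)]
    have h1 : ((a.natAbs ^ 2 + m ^ 2 : ℕ) : ℝ) = (a : ℝ) ^ 2 + (m : ℝ) ^ 2 := by
      push_cast
      rw [Nat.cast_natAbs]
      push_cast
      rw [sq_abs]
    rw [h1]
    constructor
    · intro h
      linarith
    · intro h
      linarith
  have hne2 : ∀ m : ℕ, PD D a m → a.natAbs ^ 2 + m ^ 2 ≠ 2 := by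
    intro m hP h2
    have h1 := od_iff.1 hP.1
    have h1 : (a + (m : ℤ)) % 2 = 1 := h1
    have h3 := hcast m
    rw [h2] at h3
    rcases Int.emod_two_eq_zero_or_one a with h5 | h5 <;> rcases Int.emod_two_eq_zero_or_one (m : ℤ) with h6 | h6
    · omega
    · have h7 : (a ^ 2 + (m : ℤ) ^ 2) % 2 = 1 := by
        simp [Int.add_emod, pow_two, Int.mul_emod, h5, h6]
      rw [← h3] at h7
      norm_num at h7
    · have h7 : (a ^ 2 + (m : ℤ) ^ 2) % 2 = 1 := by
        simp [Int.add_emod, pow_two, Int.mul_emod, h5, h6]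
      rw [← h3] at h7
      norm_num at h7
    · omega
  unfold piD
  symm
  apply card_bij (fun m _ => a.natAbs ^ 2 + m ^ 2)
  · intro m hm
    rw [mem_filter, mem_Icc] at hm
    obtain ⟨⟨hm1, hm2⟩, hp, hP⟩ := hm
    rw [hfl m hm1] at hm2
    rw [mem_filter, mem_range]
    have h2 := hne2 m hP
    have hD := cop_prime hp h2 (hcast m).symm hP.2.1
    refine ⟨by omega, hp, ?_, (tr_iff hp h2 (hcast m).symm hD).2 hP⟩
    intro hd
    rcases (Nat.prime_iff_prime_int.1 hp).dvd_or_dvd hd with h | h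
    · apply h2
      have h' : (a.natAbs ^ 2 + m ^ 2) ∣ 2 := by exact_mod_cast h
      exact (Nat.prime_dvd_prime_iff_eq hp Nat.prime_two).1 h'
    · exact hD h
  · intro m _ m' _ h
    have : m ^ 2 = m' ^ 2 := by
      have h1 : a.natAbs ^ 2 + m ^ 2 = a.natAbs ^ 2 + m' ^ 2 := h
      omega
    exact Nat.pow_left_injective (by norm_num) this
  · intro p hp
    rw [mem_filter, mem_range] at hp
    obtain ⟨hpx, hp, hD, ht⟩ := hp
    obtain ⟨b, m, h1, h4, h5⟩ := exists_rep_of_trace hp hD (by rw [ht]; omega)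
    have hab : b = a := by
      rw [ht] at h5
      omega
    subst hab
    have hmn : ((m.toNat : ℕ) : ℤ) = m := Int.toNat_of_nonneg (by omega)
    have hpe : b.natAbs ^ 2 + m.toNat ^ 2 = p := by
      have := hcast m.toNat
      rw [hmn, h1] at this
      exact_mod_cast this
    have h2 : p ≠ 2 := by
      rintro rfl
      exact hD (dvd_mul_right 2 D)
    refine ⟨m.toNat, ?_, hpe⟩
    rw [mem_filter, mem_Icc]
    refine ⟨⟨by omega, ?_⟩, ?_, ?_⟩
    · rw [hfl _ (by omega), hpe]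
      omega
    · rw [hpe]
      exact hp
    · rw [hmn]
      exact (tr_iff hp h2 h1 (fun h => hD (Dvd.dvd.mul_left h 2))).1 ht

end Pool.Agent.U239.LQ
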