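import Pool.Agent.U239.LQ.Per
import Pool.Agent.R441.Q4.M
import Pool.Agent.N782.GN.LTb

/-!
# The traces of Frobenius of the curves `y² = x³ - D x`
-/

set_option autoImplicit false
set_option linter.unusedSectionVars false

namespace Pool.Agent.U239.LQ

open Pool.Agent.R441.Q4
open Pool.Agent.H304R2.EC Pool.Agent.H304R2.EC.Pts
open Finset hiding range

section
variable {π : ZI} {F : Type} [Field F] [Fintype F] {ρ : ZI →+* F}

/-- the square of the quartic character is the quadratic character -/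
lemma quad_eq [DecidableEq F] (h : Res π F ρ) (x : F) : ((quadraticChar F x : ℤ) : ZI) = h.chi x ^ 2 := by
  by_cases hx : x = 0
  · rw [hx, MulChar.map_zero, MulChar.map_zero]
    simp
  have h1 := quadraticChar_eq_pow_of_char_ne_two' h.char_ne x
  rw [h.card] at h1
  have hv : Val4 ((quadraticChar F x : ℤ) : ZI) := by
    rcases quadraticChar_dichotomy hx with h2 | h2 <;> rw [h2] <;> right <;> decide
  apply h.pp.eq_val hv (Val4.pow (Or.inr (h.chi_norm hx)) 2)
  rw [← h.ker, map_sub, map_pow, h.rho_chi, ← pow_mul, sub_eq_zero]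
  have h2 : nrm π / 4 * 2 = nrm π / 2 := by
    have := h.pp.nrm_mod
    omega
  rw [h2, ← h1, map_intCast]

lemma chi_neg_one_sq [DecidableEq F] (h : Res π F ρ) : h.chi (-1) ^ 2 = 1 := by
  rw [← MulChar.pow_apply' _ two_ne_zero]
  have h1 : (h.chi ^ 2) (-1) = h.chi ((-1) ^ 2) := by
    rw [MulChar.pow_apply' _ two_ne_zero, map_pow]
  rw [h1]
  simp

/-- the sums of the quadratic character over the quartic twists (compare `Y699.Qg`) -/
theorem sum_twist [DecidableEq F] (h : Res π F ρ) {a : F} (ha : a ≠ 0) :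
    ((∑ x : F, quadraticChar F (x * (x ^ 2 - a)) : ℤ) : ZI) = star (h.chi a) * h.J + h.chi a * star h.J := by
  have hkey : ∑ u : F, h.chi u * h.chi (u - a) ^ 2 = star (h.chi a) * h.J := by
    rw [← Equiv.sum_comp (Equiv.mulLeft₀ a ha), h.J_def, Finset.mul_sum]
    refine Finset.sum_congr rfl fun v _ => ?_
    have e1 : (Equiv.mulLeft₀ a ha) v = a * v := rfl
    have e2 : a * v - a = a * (-1 * (1 - v)) := by ring
    rw [e1, e2, map_mul, map_mul, map_mul, mul_pow, mul_pow, chi_neg_one_sq h, h.star_chi]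
    ring
  have hkey2 : ∑ u : F, star (h.chi u) * h.chi (u - a) ^ 2 = h.chi a * star h.J := by
    have := congrArg star hkey
    rw [star_sum] at this
    rw [star_mul, star_star, mul_comm] at this
    rw [← this]
    refine Finset.sum_congr rfl fun u _ => ?_
    rw [star_mul]
    have e : star (h.chi (u - a) ^ 2) = h.chi (u - a) ^ 2 := by
      rw [← quad_eq h, star_intCast]
    rw [e, mul_comm]
  rw [← hkey, ← hkey2, ← Finset.sum_add_distrib]
  have e1 : ((∑ x : F, quadraticChar F (x * (x ^ 2 - a)) : ℤ) : ZI) =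
      ∑ x : F, h.chi (x ^ 2) * h.chi (x ^ 2 - a) ^ 2 := by
    rw [Int.cast_sum]
    refine Finset.sum_congr rfl fun x _ => ?_
    rw [map_mul, Int.cast_mul, quad_eq h, quad_eq h, map_pow]
  rw [e1, ← Finset.sum_fiberwise Finset.univ (fun x : F => x ^ 2)]
  refine Finset.sum_congr rfl fun u _ => ?_
  have e3 : ∑ x ∈ Finset.univ.filter (fun x : F => x ^ 2 = u), h.chi (x ^ 2) * h.chi (x ^ 2 - a) ^ 2 =
      ((Finset.univ.filter (fun x : F => x ^ 2 = u)).card : ZI) * (h.chi u * h.chi (u - a) ^ 2) := by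
    rw [← nsmul_eq_mul, ← Finset.sum_const]
    refine Finset.sum_congr rfl fun x hx => ?_
    rw [(Finset.mem_filter.1 hx).2]
  rw [e3]
  have e4 := quadraticChar_card_sqrts h.char_ne u
  have e5 : ({x : F | x ^ 2 = u}.toFinset) = Finset.univ.filter (fun x : F => x ^ 2 = u) := by
    ext x; simp
  rw [e5] at e4
  have e6 : ((Finset.univ.filter (fun x : F => x ^ 2 = u)).card : ZI) = h.chi u ^ 2 + 1 := by
    rw [← quad_eq h]
    exact_mod_cast congrArg (Int.cast : ℤ → ZI) e4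
  rw [e6, h.star_chi]
  ring

end

/-- the residue field of a Gaussian prime of degree one -/
lemma res_zmod {p : ℕ} [hp : Fact p.Prime] (h2 : p ≠ 2) {c d : ℤ} (hcd : c ^ 2 + d ^ 2 = p) :
    ∃ ρ : ZI →+* ZMod p, Res ⟨c, d⟩ (ZMod p) ρ := by
  have hc : (c : ZMod p) ≠ 0 := by
    intro h0
    rw [ZMod.intCast_zmod_eq_zero_iff_dvd] at h0
    have hd : (p : ℤ) ∣ d ^ 2 := by
      have : d ^ 2 = p - c ^ 2 := by linarith
      rw [this]
      exact dvd_sub_self_left.2 (dvd_pow h0 two_ne_zero)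
    have hp' : Prime (p : ℤ) := Nat.prime_iff_prime_int.1 hp.out
    have hd2 := hp'.dvd_of_dvd_pow hd
    obtain ⟨u, hu⟩ := h0
    obtain ⟨v, hv⟩ := hd2
    rw [hu, hv] at hcd
    have h3 : (p : ℤ) * (p * (u ^ 2 + v ^ 2) - 1) = 0 := by linear_combination hcd
    rcases mul_eq_zero.1 h3 with h4 | h4
    · exact hp'.ne_zero h4
    · have h5 : (p : ℤ) ∣ 1 := ⟨u ^ 2 + v ^ 2, by linarith⟩
      exact hp'.not_unit (isUnit_of_dvd_one h5)
  obtain ⟨ρ, hρ, -⟩ := exists_rho hcd hc
  have hop := op_of_norm hp.out h2 hcd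
  refine ⟨ρ, hop, ?_, ?_, ?_⟩
  · intro x
    exact ⟨(x.val : ZI), by rw [map_natCast]; exact ZMod.natCast_zmod_val x⟩
  · intro a
    constructor
    · intro ha
      have hmax := hop.max
      have hle : (Ideal.span {(⟨c, d⟩ : ZI)} : Ideal ZI) ≤ RingHom.ker ρ := by
        rw [Ideal.span_singleton_le_iff_mem, RingHom.mem_ker]
        exact hρ
      have hne : RingHom.ker ρ ≠ ⊤ := RingHom.ker_ne_top ρ
      have he := hmax.eq_of_le hne hle
      rw [← Ideal.mem_span_singleton, he, RingHom.mem_ker]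
      exact ha
    · rintro ⟨k, rfl⟩
      rw [map_mul, hρ, zero_mul]
  · rw [ZMod.card]
    unfold nrm
    rw [norm_def']
    show p = (c ^ 2 + d ^ 2).natAbs
    rw [hcd]
    exact (Int.natAbs_natCast p).symm

/-- the Jacobsthal sum of `D` at `p = l² + m²`, `m` even -/
theorem SS_eq {p : ℕ} [hp : Fact p.Prime] (h2 : p ≠ 2) {l m : ℤ} (h : l ^ 2 + m ^ 2 = p) (hl : l % 2 = 1)
    (hm : m % 2 = 0) {D : ℤ} (hD : (D : ZMod p) ≠ 0) :
    SS (D : ZMod p) = - (2 * ZMod.χ₄ ((l + m : ℤ) : ZMod 4) * (star (q4 ⟨l, m⟩ (D : ZI)) * (⟨l, m⟩ : ZI)).re) := by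
  classical
  obtain ⟨ρ, hR⟩ := res_zmod h2 h
  have hop := hR.pp
  set π : ZI := ⟨l, m⟩ with hπ
  have hJ2 := hR.J_sq hm
  obtain ⟨hm0, hl0⟩ := Pool.Agent.N782.GN.LT.prime_ne_sq hp.out h
  have hJ : hR.J = π ∨ hR.J = -π := sq_eq_sq_iff_eq_or_eq_neg.1 hJ2
  -- the sum for `D = 1`
  have h1 := sum_twist hR (a := 1) one_ne_zero
  rw [map_one, star_one, one_mul, one_mul] at h1
  have h3 : SS (1 : ZMod p) = - (2 * (ZMod.χ₄ ((l + m : ℤ) : ZMod 4)) * l) := by
    have k1 := aE_eq_SS (p := p) h2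
    have k2 := aE_eq p hp.out h2
    have k3 := Pool.Agent.N782.GN.LT.an_prime hp.out h hl hm
    linarith
  have h4 : ((SS (1 : ZMod p) : ℤ) : ZI) = hR.J + star hR.J := by
    rw [← h1]
    rfl
  have hre := congrArg Zsqrtd.re h4
  rw [Zsqrtd.re_intCast, Zsqrtd.re_add, Zsqrtd.re_star, h3] at hre
  set s : ℤ := ZMod.χ₄ ((l + m : ℤ) : ZMod 4) with hs
  have hs1 : s = 1 ∨ s = -1 := Pool.Agent.N782.GN.LT.chi_pm (by omega)
  have hJ' : hR.J = -((s : ZI) * π) := by
    rcases hJ with hJ | hJ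
    · rw [hJ] at hre ⊢
      have e1 : π.re = l := rfl
      rw [e1] at hre
      rcases hs1 with h5 | h5
      · exfalso
        rw [h5] at hre
        omega
      · rw [h5]
        push_cast
        ring
    · rw [hJ] at hre ⊢
      have e1 : (-π).re = -l := rfl
      rw [e1] at hre
      rcases hs1 with h5 | h5
      · rw [h5]
        push_cast
        ring
      · exfalso
        rw [h5] at hre
        omega
  have h6 := sum_twist hR hD
  have h7 : hR.chi (D : ZMod p) = q4 π (D : ZI) := by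
    have : (D : ZMod p) = ρ (D : ZI) := by rw [map_intCast]
    rw [this, hR.chi_map]
  rw [h7, hJ'] at h6
  have h8 : ((SS (D : ZMod p) : ℤ) : ZI) = star (q4 π (D : ZI)) * -((s : ZI) * π) + q4 π (D : ZI) * star (-((s : ZI) * π)) := by
    rw [← h6]
    rfl
  have e2 : q4 π (D : ZI) * star (-((s : ZI) * π)) = star (star (q4 π (D : ZI)) * -((s : ZI) * π)) := by
    rw [star_mul, star_star, mul_comm]
  rw [e2] at h8
  have h9 := congrArg Zsqrtd.re h8
  rw [Zsqrtd.re_intCast, Zsqrtd.re_add, Zsqrtd.re_star] at h9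
  rw [h9]
  have e3 : star (q4 π (D : ZI)) * -((s : ZI) * π) = ((-s : ℤ) : ZI) * (star (q4 π (D : ZI)) * π) := by
    push_cast
    ring
  rw [e3]
  have e4 : (((-s : ℤ) : ZI) * (star (q4 π (D : ZI)) * π)).re = -s * (star (q4 π (D : ZI)) * π).re := by
    rw [Zsqrtd.re_mul, Zsqrtd.re_intCast, Zsqrtd.im_intCast]
    ring
  rw [e4]
  ring

end Pool.Agent.U239.LQ
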